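import Pool.Agent.Helper10.RBC.Goals
import Pool.Agent.Helper88.GS.GB3
import Pool.Agent.Helper56.GS.GB5

/-! RBC: the numerical dimension (`S_RNK`). -/

open Complex Metric Set Filter Topology MeasureTheory
open scoped ContDiff ComplexConjugate ComplexOrder Manifold Matrix MatrixOrder

namespace Pool.Agent.Helper10.RBC

open Pool.Agent.Helper95.Lin Pool.Agent.Helper16.Abund Pool.Agent.Helper92.Orb
  Pool.Agent.Helper10.SP Pool.Agent.Helper95.RK Pool.Agent.Helper57.HS
  Pool.Agent.Helper15.HS Pool.Agent.Helper15.GS Pool.Agent.Helper57.RBC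

universe u v

theorem det_real {n : ℕ} {h : Matrix (Fin n) (Fin n) ℂ} (hh : h.IsHermitian) :
    h.det = ((h.det.re : ℝ) : ℂ) := by
  have h1 : conj h.det = h.det := by
    have h2 : (hᴴ).det = conj h.det := by
      rw [Matrix.det_conjTranspose]; rfl
    rw [← h2, hh.eq]
  exact (Complex.conj_eq_iff_re.1 h1).symm

/-- Pointwise: `0 ≤ det (1 + c A) ≤ (1 + c S)^r`. -/
theorem rnk_pt (hRDL : S_RDL) {n : ℕ} (r : ℕ) (h P A : Matrix (Fin n) (Fin n) ℂ)
    (hh : h.PosDef) (hPP : P * P = P) (htr : Matrix.trace P = r) (hPA : P * A = A)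
    (hA : (A * h).PosSemidef) (S : ℝ) (hS0 : 0 ≤ S) (hS : (Matrix.trace A).re ≤ S) (c : ℝ)
    (hc : 0 ≤ c) : 0 ≤ (1 + (c : ℂ) • A).det.re ∧ (1 + (c : ℂ) • A).det.re ≤ (1 + c * S) ^ r := by
  have hu : IsUnit h.det := hh.det_pos.ne'.isUnit
  have hD : ((c : ℂ) • (A * h)).PosSemidef := hA.smul (by exact_mod_cast hc)
  have e1 : h + (c : ℂ) • (A * h) = (1 + (c : ℂ) • A) * h := by
    rw [Matrix.add_mul, Matrix.one_mul, Matrix.smul_mul]
  have hdh : 0 < h.det.re := (Complex.pos_iff.1 hh.det_pos).1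
  have e2 : (h + (c : ℂ) • (A * h)).det.re = (1 + (c : ℂ) • A).det.re * h.det.re := by
    rw [e1, Matrix.det_mul, det_real hh.isHermitian, mul_comm, Complex.re_ofReal_mul,
      Complex.ofReal_re, mul_comm]
  have h1 : (h + (c : ℂ) • (A * h)).PosDef := hh.add_posSemidef hD
  have h2 : 0 < (h + (c : ℂ) • (A * h)).det.re := (Complex.pos_iff.1 h1.det_pos).1
  have h3 : ((S : ℂ) • h - A * h).PosSemidef := by
    refine Pool.Agent.Helper88.GS.le_tr_smul hA hh ?_
    rwa [Matrix.mul_assoc, Matrix.mul_nonsing_inv _ hu, Matrix.mul_one]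
  have h4 : (((1 + c * S : ℝ) : ℂ) • h - (h + (c : ℂ) • (A * h))).PosSemidef := by
    have e3 : ((1 + c * S : ℝ) : ℂ) • h - (h + (c : ℂ) • (A * h)) =
        (c : ℂ) • ((S : ℂ) • h - A * h) := by
      push_cast
      module
    rw [e3]
    exact h3.smul (by exact_mod_cast hc)
  have h5 := hRDL r h ((c : ℂ) • (A * h)) P (1 + c * S) hh hD hPP htr
    (by rw [Matrix.mul_smul, ← Matrix.mul_assoc, hPA])
    (by have := mul_nonneg hc hS0; linarith) h4
  rw [e2] at h2 h5
  refine ⟨(pos_of_mul_pos_left h2 hdh.le).le, le_of_mul_le_mul_right h5 hdh⟩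

/-- An elementary comparison of exponents. -/
theorem exp_cmp (k r : ℕ) (S : ℝ) (hS : 0 ≤ S)
    (h : ∀ t : ℝ, 0 < t → (1 + t) ^ k ≤ (1 + t * S) ^ r) : k ≤ r := by
  by_contra hk
  push Not at hk
  set c : ℝ := max 1 S with hc
  have hc1 : 1 ≤ c := le_max_left _ _
  have hcS : S ≤ c := le_max_right _ _
  set t : ℝ := c ^ r with ht
  have ht1 : 1 ≤ t := one_le_pow₀ hc1
  have ht0 : 0 < t := by linarith
  have h1 := h t ht0
  have h2 : (1 + t * S) ^ r ≤ (c * (1 + t)) ^ r := by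
    refine pow_le_pow_left₀ (by positivity) ?_ r
    have := mul_le_mul_of_nonneg_left hcS ht0.le
    nlinarith
  have h3 : (1 + t) ^ k = (1 + t) ^ r * (1 + t) ^ (k - r) := by
    rw [← pow_add]
    congr 1
    omega
  have h4 : 1 + t ≤ (1 + t) ^ (k - r) := by
    calc (1 + t) = (1 + t) ^ 1 := (pow_one _).symm
      _ ≤ (1 + t) ^ (k - r) := pow_le_pow_right₀ (by linarith) (by omega)
  have h5 : (1 + t) ^ r * (1 + t) ≤ (1 + t) ^ r * c ^ r := by
    calc (1 + t) ^ r * (1 + t) ≤ (1 + t) ^ r * (1 + t) ^ (k - r) :=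
          mul_le_mul_of_nonneg_left h4 (by positivity)
      _ = (1 + t) ^ k := h3.symm
      _ ≤ (c * (1 + t)) ^ r := h1.trans h2
      _ = (1 + t) ^ r * c ^ r := by rw [mul_pow]; ring
  have h6 := le_of_mul_le_mul_left h5 (by positivity)
  rw [← ht] at h6
  linarith

/-- The entries of `B` are continuous. -/
theorem bep_cont {n : ℕ} {T : Set (Cn n)} {G : Type u} [Group G] {R : G → Cn n → Cn n → Prop}
    {h Q : Cn n → Matrix (Fin n) (Fin n) ℂ} (hh : HerT T R h) (hQk : KEt T R Q) (ε : ℝ) :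
    ∀ a c, ContinuousOn (fun x => Bep ε h Q x a c) T := by
  intro a c
  have e0 : (fun x => Bep ε h Q x a c) =
      fun x => (ε : ℂ) * ∑ k, h x a k * (Q x)⁻¹ k c := by
    funext x
    simp [Bep, Matrix.mul_apply]
  have hiq : ∀ a c, ContinuousOn (fun x => (Q x)⁻¹ a c) T := by
    intro a c
    have h1 : ContinuousOn Q T := by
      refine continuousOn_pi.2 fun a => continuousOn_pi.2 fun c => ?_
      exact (hQk.smooth a c).continuousOn
    have h2 : ContinuousOn (fun x => (Q x).adjugate a c) T := by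
      have h3 : Continuous fun M : Matrix (Fin n) (Fin n) ℂ => M.adjugate a c :=
        (Continuous.matrix_adjugate continuous_id).matrix_elem a c
      exact h3.comp_continuousOn h1
    have h4 : ContinuousOn (fun x => (Q x).det) T :=
      (Continuous.matrix_det continuous_id).comp_continuousOn h1
    have h5 : ContinuousOn (fun x => ((Q x).det)⁻¹ * (Q x).adjugate a c) T :=
      (h4.inv₀ fun x hx => (hQk.posDef x hx).det_pos.ne').mul h2
    refine h5.congr fun x _ => ?_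
    rw [Matrix.inv_def, Matrix.smul_apply, Ring.inverse_eq_inv', smul_eq_mul]
  rw [e0]
  refine continuousOn_const.mul (continuousOn_finsetSum _ fun k _ => ?_)
  exact (hh.smooth a k).continuousOn.mul (hiq k c)

/-- Pointwise comparison of the integrands. -/
theorem rnk_cmp (hTRC : Pool.Agent.Helper95.HS.S_TRC) {n : ℕ} (h H Q : Matrix (Fin n) (Fin n) ℂ)
    (hH : H.PosDef) (hQx : Q.PosDef) (t C ε : ℝ) (ht : 0 < t) (hε : 0 < ε)
    (hC : ((C : ℂ) • h - H).PosSemidef) :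
    (Q + ((t * ε : ℝ) : ℂ) • H).det.re ≤
      Q.det.re * (1 + ((t * C : ℝ) : ℂ) • ((ε : ℂ) • (h * Q⁻¹))).det.re := by
  have hqu : IsUnit Q.det := hQx.det_pos.ne'.isUnit
  have htε : 0 ≤ t * ε := mul_nonneg ht.le hε.le
  have e1 : Q.det.re * (1 + ((t * C : ℝ) : ℂ) • ((ε : ℂ) • (h * Q⁻¹))).det.re =
      (Q + ((t * C * ε : ℝ) : ℂ) • h).det.re := by
    have e2 : Q + ((t * C * ε : ℝ) : ℂ) • h =
        (1 + ((t * C : ℝ) : ℂ) • ((ε : ℂ) • (h * Q⁻¹))) * Q := by
      rw [Matrix.add_mul, Matrix.one_mul, Matrix.smul_mul, Matrix.smul_mul,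
        Matrix.mul_assoc, Matrix.nonsing_inv_mul _ hqu, Matrix.mul_one, smul_smul]
      push_cast
      rfl
    rw [e2, Matrix.det_mul, det_real hQx.isHermitian, mul_comm _ ((Q.det.re : ℝ) : ℂ),
      Complex.re_ofReal_mul, Complex.ofReal_re]
  rw [e1]
  have hX : (Q + ((t * ε : ℝ) : ℂ) • H).PosDef :=
    hQx.add_posSemidef (hH.posSemidef.smul (by exact_mod_cast htε))
  refine (hTRC _ (Q + ((t * C * ε : ℝ) : ℂ) • h) hX).2.2.2.1 ?_
  have e3 : Q + ((t * C * ε : ℝ) : ℂ) • h - (Q + ((t * ε : ℝ) : ℂ) • H) =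
      ((t * ε : ℝ) : ℂ) • ((C : ℂ) • h - H) := by
    push_cast
    module
  rw [e3]
  exact hC.smul (by exact_mod_cast htε)

theorem F_cont {n : ℕ} (T : Set (Cn n)) (c : ℝ) :
    ContinuousOn (fun q : Cn n × Matrix (Fin n) (Fin n) ℂ => (1 + (c : ℂ) • q.2).det.re)
      (T ×ˢ univ) := by
  refine Continuous.continuousOn ?_
  have h0 : Continuous fun q : Cn n × Matrix (Fin n) (Fin n) ℂ => (c : ℂ) • q.2 :=
    continuous_snd.const_smul (c : ℂ)
  have h1 : Continuous fun q : Cn n × Matrix (Fin n) (Fin n) ℂ =>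
      (1 : Matrix (Fin n) (Fin n) ℂ) + (c : ℂ) • q.2 :=
    continuous_const.add h0
  exact Complex.continuous_re.comp h1.matrix_det

theorem F_cont2 {n : ℕ} {T : Set (Cn n)} {F : Cn n → Matrix (Fin n) (Fin n) ℂ → ℝ}
    {X : Cn n → Matrix (Fin n) (Fin n) ℂ}
    (hFc : ContinuousOn (fun q : Cn n × Matrix (Fin n) (Fin n) ℂ => F q.1 q.2) (T ×ˢ univ))
    (hX : ∀ a c, ContinuousOn (fun x => X x a c) T) : ContinuousOn (fun x => F x (X x)) T := by
  have h1 : ContinuousOn X T := continuousOn_pi.2 fun a => continuousOn_pi.2 fun c => hX a c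
  have h2 : ContinuousOn (fun x => ((x, X x) : Cn n × Matrix (Fin n) (Fin n) ℂ)) T :=
    continuousOn_id.prodMk h1
  exact ContinuousOn.comp (g := fun q : Cn n × Matrix (Fin n) (Fin n) ℂ => F q.1 q.2)
    (f := fun x => ((x, X x) : Cn n × Matrix (Fin n) (Fin n) ℂ)) hFc h2
    fun x hx => ⟨hx, mem_univ _⟩

theorem itg_int {n : ℕ} {T : Set (Cn n)} {G : Type u} [Group G] {R : G → Cn n → Cn n → Prop}
    {κ : Cn n → ℝ} (hT : IsOpen T) (hκ : IsPUE T R κ) {Q : Cn n → Matrix (Fin n) (Fin n) ℂ}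
    (hQ : KEt T R Q) {f : Cn n → ℝ} (hf : ContinuousOn f T) :
    IntegrableOn (fun x => κ x * (Q x).det.re * f x) T := by
  have hdc : ContinuousOn (fun x => (Q x).det.re) T :=
    Pool.Agent.Helper56.GS.GB5.det_cont hQ.smooth
  have h1 := (Pool.Agent.Helper56.GS.GB5.testF_mul hT hκ.test
    (f := fun x => (Q x).det.re * f x) (hdc.mul hf)).integrableOn (s := T)
  refine h1.congr_fun (fun x _ => ?_) hT.measurableSet
  simp only [mul_assoc]

theorem itg_one {n : ℕ} (T : Set (Cn n)) (κ : Cn n → ℝ)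
    (Q : Cn n → Matrix (Fin n) (Fin n) ℂ) :
    itg T κ Q (fun _ => 1) = Pool.Agent.Helper95.HS.vol T κ Q := by
  simp only [itg, Pool.Agent.Helper95.HS.vol, mul_one]

/-- The comparison for one metric. -/
theorem rnk_one (hTRC : Pool.Agent.Helper95.HS.S_TRC) {n : ℕ} {T : Set (Cn n)} {G : Type u}
    [Group G] {R : G → Cn n → Cn n → Prop} {κ : Cn n → ℝ} (hT : IsOpen T) (hκ : IsPUE T R κ)
    {H h Q : Cn n → Matrix (Fin n) (Fin n) ℂ} (hH : KEt T R H) (hh : HerT T R h)
    (hQ : KEt T R Q) (t C ε b : ℝ) (ht : 0 < t) (hε : 0 < ε)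
    (hC : ∀ x ∈ T, ((C : ℂ) • h x - H x).PosSemidef)
    (hvol : 0 < Pool.Agent.Helper95.HS.vol T κ Q)
    (hb : avE T κ Q (fun x => (1 + ((t * C : ℝ) : ℂ) • Bep ε h Q x).det.re) ≤ b) :
    ∫ x in T, κ x * (Q x + ((t * ε : ℝ) : ℂ) • H x).det.re ≤
      b * Pool.Agent.Helper95.HS.vol T κ Q := by
  have hFB : ContinuousOn (fun x => (1 + ((t * C : ℝ) : ℂ) • Bep ε h Q x).det.re) T :=
    F_cont2 (F := fun _ X => (1 + ((t * C : ℝ) : ℂ) • X).det.re) (F_cont T (t * C))
      (bep_cont hh hQ ε)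
  rw [avE, itg_one, div_le_iff₀ hvol] at hb
  refine le_trans ?_ hb
  rw [itg]
  have i1 : IntegrableOn (fun x => κ x * (Q x + ((t * ε : ℝ) : ℂ) • H x).det.re) T := by
    refine (Pool.Agent.Helper56.GS.GB5.testF_mul hT hκ.test
      (Pool.Agent.Helper56.GS.GB5.det_cont fun a c => ?_)).integrableOn
    exact (hQ.smooth a c).add (contDiffOn_const.mul (hH.smooth a c))
  refine setIntegral_mono_on i1 (itg_int hT hκ hQ hFB) hT.measurableSet fun x hx => ?_
  rw [mul_assoc]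
  refine mul_le_mul_of_nonneg_left ?_ (hκ.nonneg x)
  exact rnk_cmp hTRC (h x) (H x) (Q x) (hH.posDef x hx) (hQ.posDef x hx) t C ε
    ht hε (hC x hx)

/-- RNK -/
theorem rnk (hCMPG : S_CMPG.{u}) (hRLV : S_RLV.{u}) (hRAVL : S_RAVL.{u}) (hRDL : S_RDL)
    (hTRC : Pool.Agent.Helper95.HS.S_TRC) (hNULL0 : Pool.Agent.Helper95.HS.S_NULL0.{u}) :
    S_RNK.{u} := by
  intro n T G _ R H h hD κ hκ k p hp hV r P A ε N φ H' Q hL
  have hT : IsOpen T := hD.ket.et.isOpen
  obtain ⟨c, C, -, hC0, hC⟩ := hCMPG T R H h hD.ket hD.her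
  obtain ⟨S₀, hS₀⟩ := hL.bd
  set S : ℝ := max S₀ 0 with hS
  have hS0 : 0 ≤ S := le_max_right _ _
  have hSb : ∀ x ∈ T, (Matrix.trace (A x)).re ≤ S := fun x hx => (hS₀ x hx).trans (le_max_left _ _)
  refine exp_cmp k r (C * S) (mul_nonneg hC0.le hS0) fun t ht => ?_
  have hcc : 0 ≤ t * C := by positivity
  -- the function `F`
  set F : Cn n → Matrix (Fin n) (Fin n) ℂ → ℝ := fun _ X =>
    (1 + ((t * C : ℝ) : ℂ) • X).det.re with hF
  have hFc : ContinuousOn (fun q : Cn n × Matrix (Fin n) (Fin n) ℂ => F q.1 q.2) (T ×ˢ univ) :=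
    F_cont T (t * C)
  have hpt : ∀ x ∈ T, 0 ≤ F x (A x) ∧ F x (A x) ≤ (1 + t * C * S) ^ r := fun x hx =>
    rnk_pt hRDL r (h x) (P x) (A x) (hD.her.posDef x hx) (hL.proj x hx) (hL.tr x hx)
      (hL.PA x hx).1 (hL.pos x hx) S hS0 (hSb x hx) (t * C) hcc
  set b : ℝ := (1 + t * C * S) ^ r with hb
  have hb0 : 0 ≤ b := by positivity
  -- the estimate for every `j` for which the average is controlled
  have ha : ∀ j, 0 < 1 + ε j * N j := fun j => by
    have h1 := (hL.fam j).nn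
    have h2 := (hL.eps j).le
    positivity
  set s : ℕ → ℝ := fun j => ε j / (1 + ε j * N j) with hs
  have hs0 : ∀ j, 0 < s j := fun j => div_pos (hL.eps j) (ha j)
  have hslim : Tendsto s atTop (𝓝 0) := by
    have h1 : Tendsto (fun j => 1 + ε j * N j) atTop (𝓝 (1 + 0)) := hL.limN.const_add 1
    have h2 := hL.lim.div h1 (by norm_num)
    rw [zero_div] at h2
    exact h2
  have hη : ∀ η : ℝ, 0 < η → (1 + t) ^ k ≤ b + η := by
    intro η hη
    have hav := hRAVL T R H h hD κ hκ r P A ε N φ H' Q hL F hFc 0 b hpt η hη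
    have hev : ∀ᶠ j in atTop, (1 + t) ^ k * p.eval (s j * (1 + t)) ≤ p.eval (s j) * (b + η) := by
      filter_upwards [hav] with j hj
      have hQk : KEt T R (Q j) := (hL.tke j).ket
      obtain ⟨hvol, -⟩ := hNULL0 T R (Q j) hQk κ hκ
      obtain ⟨-, hlv⟩ := hRLV T R H hD.ket κ hκ (ε j) (N j) (φ j) (H' j) (Q j) (hL.eps j)
        (hL.fam j) (hL.tke j)
      have h2 := rnk_one hTRC hT hκ hD.ket hD.her hQk t C (ε j) (b + η) ht (hL.eps j)
        (fun x hx => (hC x hx).2) hvol hj.2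
      -- volumes
      have e4 : Pool.Agent.Helper95.HS.vol T κ (Q j) =
          (1 + ε j * N j) ^ n * (s j ^ k * p.eval (s j)) := by
        have h3 := hlv 0
        simp only [Complex.ofReal_zero, zero_smul, add_zero] at h3
        rw [Pool.Agent.Helper95.HS.vol, h3, hV]
      have e5 : ∫ x in T, κ x * (Q j x + ((t * ε j : ℝ) : ℂ) • H x).det.re =
          (1 + ε j * N j) ^ n * ((s j * (1 + t)) ^ k * p.eval (s j * (1 + t))) := by
        have h3 := hlv (t * ε j)
        have h4 : (ε j + t * ε j) / (1 + ε j * N j) = s j * (1 + t) := by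
          simp only [hs]
          ring
        rw [h3, h4, hV]
      rw [e4, e5] at h2
      have hq : 0 < (1 + ε j * N j) ^ n * s j ^ k := by
        have := ha j
        have := hs0 j
        positivity
      have h6 : ((1 + ε j * N j) ^ n * s j ^ k) * ((1 + t) ^ k * p.eval (s j * (1 + t))) ≤
          ((1 + ε j * N j) ^ n * s j ^ k) * (p.eval (s j) * (b + η)) := by
        calc ((1 + ε j * N j) ^ n * s j ^ k) * ((1 + t) ^ k * p.eval (s j * (1 + t)))
            = (1 + ε j * N j) ^ n * ((s j * (1 + t)) ^ k * p.eval (s j * (1 + t))) := by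
              rw [mul_pow]; ring
          _ ≤ (b + η) * ((1 + ε j * N j) ^ n * (s j ^ k * p.eval (s j))) := h2
          _ = _ := by ring
      exact le_of_mul_le_mul_left h6 hq
    have hl1 : Tendsto (fun j => (1 + t) ^ k * p.eval (s j * (1 + t))) atTop
        (𝓝 ((1 + t) ^ k * p.eval 0)) := by
      have h1 : Tendsto (fun j => s j * (1 + t)) atTop (𝓝 (0 * (1 + t))) :=
        hslim.mul_const _
      rw [zero_mul] at h1
      exact ((p.continuous.tendsto 0).comp h1).const_mul _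
    have hl2 : Tendsto (fun j => p.eval (s j) * (b + η)) atTop (𝓝 (p.eval 0 * (b + η))) :=
      ((p.continuous.tendsto 0).comp hslim).mul_const _
    have h7 := le_of_tendsto_of_tendsto hl1 hl2 hev
    have h8 : p.eval 0 * (1 + t) ^ k ≤ p.eval 0 * (b + η) := by linarith
    exact le_of_mul_le_mul_left h8 hp
  have h9 : (1 + t) ^ k ≤ b := le_of_forall_pos_le_add hη
  rw [hb] at h9
  calc (1 + t) ^ k ≤ (1 + t * C * S) ^ r := h9
    _ = (1 + t * (C * S)) ^ r := by ring

end Pool.Agent.Helper10.RBC
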