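import Pool.Agent.Helper15.GS.GoalsE
import Pool.Agent.Helper57.RBC.Defs

/-!
# RBC, goals V (helper10): `P Q = P h`, numerical dimension, volume, concentration of scalar functions

`H` is an invariant Kähler metric, `h` an invariant Hermitian metric with nonpositive real bisectional curvature
(`RDat`). All goals of `Helper10/SP`, `Helper95/Lin`, `Helper15/HS/GoalsC.lean`, `Helper95/HS/GoalsA.lean`,
`GoalsB.lean`, `Helper15/GS/GoalsD.lean`, `GoalsE.lean` which do not mention `GDat` are proved and may be used.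
-/

open Complex Metric Set Filter Topology MeasureTheory
open scoped ContDiff ComplexConjugate ComplexOrder Manifold Matrix

namespace Pool.Agent.Helper10.RBC

open Pool.Agent.Helper95.Lin Pool.Agent.Helper16.Abund Pool.Agent.Helper92.Orb
  Pool.Agent.Helper10.SP Pool.Agent.Helper95.RK Pool.Agent.Helper57.HS
  Pool.Agent.Helper15.HS Pool.Agent.Helper15.GS Pool.Agent.Helper57.RBC

universe u v

/-! ## 1. `P Q = P h` -/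

/-- RBL. Pointwise: `β := P h`, `D := β Q⁻¹ - P`. If `β Q⁻¹ β = β` then `D Q Dᴴ = P Q Pᴴ - β`, so `tr (P Q h⁻¹) - k =
tr (h⁻¹ (D Q Dᴴ)) ≥ 0`, and if it vanishes then `D = 0`, i.e. `P Q = P h`.
PROOF. `K := Q⁻¹`. `D Q = β - P Q`, `(β - P Q)(K β - Pᴴ) = β K β - β Pᴴ - P β + P Q Pᴴ = P Q Pᴴ - β` (`β Pᴴ = β = P β`). `h⁻¹ P = Pᴴ h⁻¹` so
`tr (h⁻¹ P Q Pᴴ) = tr (P Q h⁻¹ P) = tr (P Q h⁻¹)` and `tr (h⁻¹ β) = tr P = k`. `h⁻¹ = s sᴴ`, `Q = q qᴴ`: the trace is `‖sᴴ D q‖²`. The hypothesis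
`β Q⁻¹ β = β` follows from the trace identity as in the proof of `GAL` (`Helper68/GS/GAL.lean`, `hβ2`). -/
def S_RBL : Prop := ∀ {n : ℕ} (k : ℕ) (h Q P : Matrix (Fin n) (Fin n) ℂ), h.PosDef →
  Q.PosDef → P * P = P → P * h = h * Pᴴ → Matrix.trace P = k →
  (Matrix.trace (P * h * Q⁻¹ * (P * h) * Q⁻¹)).re - 2 * (Matrix.trace (P * h * Q⁻¹)).re + k = 0 →
  0 ≤ (Matrix.trace (P * Q * h⁻¹)).re - k ∧
  ((Matrix.trace (P * Q * h⁻¹)).re - k = 0 → P * Q = P * h)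

/-- RBO. `P Q = P h`. The last hypothesis is the conclusion of `GB5`. USES: MCAL, CSY, PARP, RBL, IFN, TRI,
NULL0, KETP, PUE.
PROOF. `N := P Q h⁻¹`, `g := tr N`, `A_k := Gam Q k - Gam h k`, `K := Q⁻¹`. `cdM k P = Γ_k P - P Γ_k`, `cdM k Q = Γ'_k Q`, `cdM k h⁻¹ = - h⁻¹ Γ_k` (`Γ = Gam h`,
`Γ' = Gam Q`), so `cdM k N = Γ_k N - N Γ_k + P A_k Q h⁻¹` and `cd k g = tr (P A_k Q h⁻¹)`. `cdbM l P = 0`, `cdbM l Q = Q Γ'_lᴴ`, `cdbM l h⁻¹ = - Γ_lᴴ h⁻¹`, so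
`cdb l (cd k g) = tr (P (cdbM l Γ'_k - cdbM l Γ_k) Q h⁻¹) + tr (P A_k Q A_lᴴ h⁻¹)`. `P cdbM l Γ_k = 0` (nullity and `CSY`), `∑ K l k cdbM l Γ'_k = rho Q K = (Q - β) K`
(`CSY`, last item). So `trL Q g = tr (P (Q - β) K Q h⁻¹) + AA = g - tr (P β h⁻¹) + AA = g - k + AA`, `AA = ∑ K l k tr ((P A_k) Q (P A_l)ᴴ h⁻¹) ≥ 0` (`h⁻¹ P = Pᴴ h⁻¹`; `K = Sᴴ S`).
`f := g - k ≥ 0` (`RBL`), `∫ κ det Q f ≤ ∫ κ det Q trL Q g = 0` (`TRI` (2)), `NULL0`: `f = 0`; `RBL`. (`g` is invariant: `IFN` for `h` and the forms `P h`, `Q`.) -/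
def S_RBO : Prop := ∀ {n : ℕ} (T : Set (Cn n)) {G : Type u} [Group G]
  (R : G → Cn n → Cn n → Prop) (H h : Cn n → Matrix (Fin n) (Fin n) ℂ), RDat T R H h →
  ∀ (k : ℕ) (P : Cn n → Matrix (Fin n) (Fin n) ℂ), ParG k T R h P →
  ∀ Q : Cn n → Matrix (Fin n) (Fin n) ℂ, BKE T R H (fun x => P x * h x) 0 Q →
  (∀ x ∈ T, (Matrix.trace (P x * h x * (Q x)⁻¹ * (P x * h x) * (Q x)⁻¹)).re -
    2 * (Matrix.trace (P x * h x * (Q x)⁻¹)).re + k = 0) → ∀ x ∈ T, P x * Q x = P x * h x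

/-! ## 2. The numerical dimension -/

/-- RDL. A perturbation of rank `r`.
PROOF. `D = P D = D Pᴴ` has rank `≤ r` (`P` is a projector of trace `r`). `M = m mᴴ`, `C := m⁻¹ D m⁻ᴴ` is Hermitian, `≥ 0`, of rank `≤ r`, with
eigenvalues `μ_i ∈ [0, lam - 1]`, at most `r` of them nonzero (`Matrix.IsHermitian.rank_eq_card_non_zero_eigs`): `det (M + D) = det M ∏ (1 + μ_i) ≤ det M lam^r`. -/
def S_RDL : Prop := ∀ {n : ℕ} (r : ℕ) (M D P : Matrix (Fin n) (Fin n) ℂ) (lam : ℝ),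
  M.PosDef → D.PosSemidef → P * P = P → Matrix.trace P = r → P * D = D → 1 ≤ lam →
  ((lam : ℂ) • M - (M + D)).PosSemidef → (M + D).det.re ≤ lam ^ r * M.det.re

/-- The normalized density. -/
noncomputable def dn {n : ℕ} (T : Set (Cn n)) (κ : Cn n → ℝ)
    (H Q : Cn n → Matrix (Fin n) (Fin n) ℂ) (x : Cn n) : ℝ :=
  (Q x).det.re / (Pool.Agent.Helper95.HS.vol T κ Q * (H x).det.re)

/-- The sequences of metrics, and the limit `A` of `ε_j h Q_j⁻¹`: `P` is the projector on the image of `A`. -/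
structure LimA {n : ℕ} (r : ℕ) (T : Set (Cn n)) {G : Type u} [Group G]
    (R : G → Cn n → Cn n → Prop) (κ : Cn n → ℝ) (H h : Cn n → Matrix (Fin n) (Fin n) ℂ)
    (P A : Cn n → Matrix (Fin n) (Fin n) ℂ) (ε N : ℕ → ℝ) (φ : ℕ → Cn n → ℝ)
    (H' Q : ℕ → Cn n → Matrix (Fin n) (Fin n) ℂ) : Prop where
  proj : ∀ x ∈ T, P x * P x = P x
  herm : ∀ x ∈ T, P x * h x = h x * (P x)ᴴ
  tr : ∀ x ∈ T, Matrix.trace (P x) = r
  cP : ∀ i j, ContinuousOn (fun x => P x i j) T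
  cA : ∀ i j, ContinuousOn (fun x => A x i j) T
  PA : ∀ x ∈ T, P x * A x = A x ∧ A x * P x = A x
  pos : ∀ x ∈ T, (A x * h x).PosSemidef
  nd : ∃ α : ℝ, 0 < α ∧ ∀ x ∈ T, α ≤ (A x + (1 - P x)).det.re
  bd : ∃ S : ℝ, ∀ x ∈ T, (Matrix.trace (A x)).re ≤ S
  eps : ∀ j, 0 < ε j
  lim : Tendsto ε atTop (𝓝 0)
  limN : Tendsto (fun j => ε j * N j) atTop (𝓝 0)
  fam : ∀ j, Fam T R H (N j) (φ j) (H' j)
  tke : ∀ j, TKE T R (H' j) (ε j) (Q j)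
  bB : ∀ C ⊆ T, IsCompact C → ∃ B : ℝ, ∀ j, ∀ x ∈ C, ∀ a c, ‖Bep (ε j) h (Q j) x a c‖ ≤ B
  conv : ∀ C ⊆ T, IsCompact C → ∀ a c, Tendsto (fun j => ∫ x in C, dn T κ H (Q j) x *
    ‖Bep (ε j) h (Q j) x a c - A x a c‖) atTop (𝓝 0)

/-- RLV. The volumes. USES: MOMG, RHOI, `S_RFAM` of `Helper57/RBC/Defs.lean`, NULL0.
PROOF. `Q_j = (1 + ε_j N_j) rho H + ε_j H + LM (ε_j φ_j + ld Q_j - ld H)` (`RFAM`). `MOMG` for `Z = (1 + ε_j N_j) rho H + (ε_j + t) H + β`, `β` closed and invariant. (2): `β = 0`, `a_j := 1 + ε_j N_j ≥ 1`,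
`∫ κ det (a_j rho H + s H) = a_j^n V(s/a_j)`. -/
def S_RLV : Prop := ∀ {n : ℕ} (T : Set (Cn n)) {G : Type u} [Group G]
  (R : G → Cn n → Cn n → Prop) (H : Cn n → Matrix (Fin n) (Fin n) ℂ), KEt T R H →
  ∀ κ, IsPUE T R κ → ∀ (ε N : ℝ) (φ : Cn n → ℝ) (H' Q : Cn n → Matrix (Fin n) (Fin n) ℂ),
  0 < ε → Fam T R H N φ H' → TKE T R H' ε Q →
  (∀ β : Cn n → Matrix (Fin n) (Fin n) ℂ, CHF β T → InvH R β →
    ∫ x in T, κ x * (Q x + β x).det.re =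
      ∫ x in T, κ x * (((1 + ε * N : ℝ) : ℂ) • rho H x + (ε : ℂ) • H x + β x).det.re) ∧
  ∀ t : ℝ, ∫ x in T, κ x * (Q x + (t : ℂ) • H x).det.re =
    (1 + ε * N) ^ n * VolP T κ H ((ε + t) / (1 + ε * N))

/-- RAVL. Averages of continuous functions of `B_j`. USES: NULL0, DETI.
PROOF. `∫ κ det H dn_j = 1`. `C := tsupport κ`, the entries of `B_j` and of `A` are bounded by `B` on `C`; `F` is uniformly continuous on the compact set `C × (ball)`: for `η > 0` there is `M` with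
`|F(x, X) - F(x, Y)| ≤ η + M ∑ ‖X a c - Y a c‖`. Integrate against `κ det H dn_j`, `κ det H` is bounded. (In the applications `F(x, X)` is a polynomial in the entries of `X` and `P x`.) -/
def S_RAVL : Prop := ∀ {n : ℕ} (T : Set (Cn n)) {G : Type u} [Group G]
  (R : G → Cn n → Cn n → Prop) (H h : Cn n → Matrix (Fin n) (Fin n) ℂ), RDat T R H h →
  ∀ κ, IsPUE T R κ → ∀ (r : ℕ) (P A : Cn n → Matrix (Fin n) (Fin n) ℂ) (ε N : ℕ → ℝ)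
  (φ : ℕ → Cn n → ℝ) (H' Q : ℕ → Cn n → Matrix (Fin n) (Fin n) ℂ),
  LimA r T R κ H h P A ε N φ H' Q →
  ∀ F : Cn n → Matrix (Fin n) (Fin n) ℂ → ℝ,
  ContinuousOn (fun q : Cn n × Matrix (Fin n) (Fin n) ℂ => F q.1 q.2) (T ×ˢ univ) →
  ∀ a b : ℝ, (∀ x ∈ T, a ≤ F x (A x) ∧ F x (A x) ≤ b) → ∀ η : ℝ, 0 < η → ∀ᶠ j in atTop,
    a - η ≤ avE T κ (Q j) (fun x => F x (Bep (ε j) h (Q j) x)) ∧
    avE T κ (Q j) (fun x => F x (Bep (ε j) h (Q j) x)) ≤ b + η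

/-- RNK. The numerical dimension is at least `n - r`. USES: CMPG, RLV, RAVL, RDL, TRC, NULL0.
PROOF. `H ≤ C h` (`CMPG`), `C > 0`. Fix `t > 0`. `det (Q_j + t ε_j H) ≤ det (Q_j + t C ε_j h) = det Q_j det (1 + t C B_j)` (`TRC`, monotonicity). Integrate and divide by `vol Q_j`: by `RLV` the left side is
`V(s_j (1 + t))/V(s_j)`, `s_j := ε_j/(1 + ε_j N_j) → 0`, `= (1 + t)^k p(s_j (1+t))/p(s_j) → (1 + t)^k`. The right side is `avE (det (1 + t C B_j)) ≤ (1 + t C S)^r + η` for large `j` by `RAVL`: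
`det (1 + t C A) det h = det (h + t C A h) ≤ (1 + t C S)^r det h` by `RDL` (`D := t C A h = P D`, `A h ≤ tr (A) h` as `tr (A h h⁻¹) = tr A`). So `(1 + t)^k ≤ (1 + t C S)^r + η` for all `η > 0`, `t > 0`
(we may take `S ≥ 0`): `k ≤ r`. -/
def S_RNK : Prop := ∀ {n : ℕ} (T : Set (Cn n)) {G : Type u} [Group G]
  (R : G → Cn n → Cn n → Prop) (H h : Cn n → Matrix (Fin n) (Fin n) ℂ), RDat T R H h →
  ∀ κ, IsPUE T R κ → ∀ (k : ℕ) (p : Polynomial ℝ), 0 < p.eval 0 →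
  (∀ s : ℝ, VolP T κ H s = s ^ k * p.eval s) →
  ∀ (r : ℕ) (P A : Cn n → Matrix (Fin n) (Fin n) ℂ) (ε N : ℕ → ℝ)
  (φ : ℕ → Cn n → ℝ) (H' Q : ℕ → Cn n → Matrix (Fin n) (Fin n) ℂ),
  LimA r T R κ H h P A ε N φ H' Q → k ≤ r

/-! ## 3. The volume of `rho h + P h` -/

/-- RDP. Pointwise: the leading coefficient of `det (1 + τ P B)`.
PROOF. `β := P h = P h Pᴴ`. `Q + τ ε β = (1 + τ P B) Q`. `B' := P B P = ε β Q⁻¹ P`, `B' h = ε β Q⁻¹ β ≥ 0` (`P h = β = βᴴ = h Pᴴ`). `det (1 + τ P B) = det (1 + τ P (P B)) = det (1 + τ (P B) P) = det (1 + τ B')`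
(`Matrix.det_one_add_mul_comm`). With `h = S Sᴴ`, `Z := S⁻¹ B' S` is Hermitian `≥ 0` and `E := S⁻¹ P S` an orthogonal projector with `E Z = Z E = Z`. `1 + τ Z - (τ Z + (1 - E)) = E ≥ 0`,
and `τ Z + (1 - E) ≥ 0`, so `det (1 + τ Z) ≥ det (τ Z + (1 - E))` (monotonicity of the determinant) `= det (τ E + (1 - E)) det (Z + (1 - E)) = τ^r det (Z + 1 - E)`. -/
def S_RDP : Prop := ∀ {n : ℕ} (r : ℕ) (Q h P B : Matrix (Fin n) (Fin n) ℂ) (ε : ℝ),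
  Q.PosDef → h.PosDef → P * P = P → P * h = h * Pᴴ → Matrix.trace P = r → 0 < ε →
  B = (ε : ℂ) • (h * Q⁻¹) → 0 ≤ (P * B * P + (1 - P)).det.re ∧ ∀ τ : ℝ, 0 ≤ τ →
  τ ^ r * (P * B * P + (1 - P)).det.re * Q.det.re ≤ (Q + ((τ * ε : ℝ) : ℂ) • (P * h)).det.re

/-- RVP. Positivity of the volume. USES: RDP, RLV, RAVL, MOMG, RHOI, NULL0.
PROOF. `τ := 1/ε_j` in `RDP`: `ε_j^(-r) det (P B_j P + 1 - P) det Q_j ≤ det (Q_j + P h)`. Integrate: `∫ κ det (Q_j + P h) ≥ ε_j^(-r) vol Q_j avE (det (P B_j P + 1 - P))`, and `avE .. ≥ α/2` for large `j` (`RAVL`: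
`P A P = A`). `vol Q_j = (1 + ε_j N_j)^n V(ε_j/(1 + ε_j N_j)) ≥ c ε_j^k` (`RLV`; `V(s) = s^k p(s)`, `p(0) > 0`, `1 ≤ 1 + ε_j N_j ≤ 2` for large `j`) `≥ c ε_j^r` (`ε_j ≤ 1`). So `∫ κ det (Q_j + P h) ≥ c α/2 > 0`. By `RLV` (1)
it is `∫ κ det ((1 + ε_j N_j) rho H + ε_j H + P h) → ∫ κ det (rho H + P h)` (continuity in two real parameters), which is `∫ κ det (rho h + P h)` by `MOMG` (`rho h = rho H + LM (ld h - ld H)`). -/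
def S_RVP : Prop := ∀ {n : ℕ} (T : Set (Cn n)) {G : Type u} [Group G]
  (R : G → Cn n → Cn n → Prop) (H h : Cn n → Matrix (Fin n) (Fin n) ℂ), RDat T R H h →
  ∀ κ, IsPUE T R κ → ∀ (k : ℕ) (p : Polynomial ℝ), 0 < p.eval 0 →
  (∀ s : ℝ, VolP T κ H s = s ^ k * p.eval s) →
  ∀ (r : ℕ) (P A : Cn n → Matrix (Fin n) (Fin n) ℂ) (ε N : ℕ → ℝ)
  (φ : ℕ → Cn n → ℝ) (H' Q : ℕ → Cn n → Matrix (Fin n) (Fin n) ℂ),
  LimA r T R κ H h P A ε N φ H' Q → k ≤ r → CHF (fun x => P x * h x) T →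
  (InvH R fun x => P x * h x) → 0 < ∫ x in T, κ x * (rho h x + P x * h x).det.re

/-! ## 4. Concentration of scalar functions -/

/-- RSC. Bounded functions of small energy converge to constants. USES: LIMG, LOWQ.
PROOF. `LIMG` for `Z_j := f_j` (`ι := Unit`): `φ` and a holomorphic function `P` with `∫_C e^u |f - P| → 0` for all compact `C`. `P` is real: `|Im P| ≤ |f_j - P|`, `∫_C e^{u_j} |Im P| → 0` so `Im P = 0` on `T` (`LOWQ` and continuity),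
hence `P` is locally constant (a holomorphic function with real values: all derivatives vanish by Cauchy–Riemann), and invariant (for an arrow `(γ, x₀, y₀)` with local map `τ` on a closed ball `B`:
`∫_B e^{u_j} |f_j - P|` and `∫_{τB}`, `u_j ∘ τ = u_j`, `f_j ∘ τ = f_j`, so `∫_B e^{u_j} |P ∘ τ - P| → 0`). For `x₀ ∈ T` the set `{P = P x₀}` is open, closed in `T`, invariant: it is `T` by `Et.conn`. -/
def S_RSC : Prop := ∀ {n : ℕ} (T : Set (Cn n)) {G : Type u} [Group G]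
  (R : G → Cn n → Cn n → Prop) (H : Cn n → Matrix (Fin n) (Fin n) ℂ), KEt T R H → ∀ K B : ℝ,
  ∀ (u f : ℕ → Cn n → ℝ), (∀ j, QPF T R H K (u j)) → (∀ j, InvF T R (f j)) →
  (∀ j, ∀ x ∈ T, |f j x| ≤ B) →
  (∀ C ⊆ T, IsCompact C → ∀ l, Tendsto (fun j => ∫ x in C, Real.exp (u j x) *
    ‖cdb l (fun y => (f j y : ℂ)) x‖) atTop (𝓝 0)) →
  ∃ φ : ℕ → ℕ, StrictMono φ ∧ ∃ a : ℝ, ∀ C ⊆ T, IsCompact C →
    Tendsto (fun j => ∫ x in C, Real.exp (u (φ j) x) * |f (φ j) x - a|) atTop (𝓝 0)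

/-- RVZ. The logarithmic cut-off. USES: RSC, WIRT, LOCB.
PROOF. It is enough to find a subsequence of every subsequence (`Filter.tendsto_of_subseq_tendsto`). `u_j := log dn_j`, `exp u_j = dn_j`, `E_j f := avE T κ (Q j) f = ∫ κ det H dn_j f`. We may assume
`η_j ≤ 1/2`. `L_j := log (1/η_j) → ∞`, `g_j := log (v_j + δ_j)`, `f_j := (g_j - log η_j)/L_j ∈ [0, B]` (`η_j ≤ v_j + δ_j ≤ M + 1`). `‖cdb l g_j‖² ≤ const tr (Q_j H⁻¹) ∑ K l k cd k g conj(cd l g)` on a compact set (`Q ≤ tr (Q H⁻¹) H`, so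
`K ≥ H⁻¹/tr (Q H⁻¹)`, and `H⁻¹ ≥ c₀`; `cdb l g = conj (cd l g)`), so `(∫_C dn_j ‖cdb l f_j‖)² ≤ const L_j⁻² (∫_C dn_j tr (Q_j H⁻¹)) (∫_C dn_j |dg_j|²_Q) ≤ const L_j⁻²` (`LOCB` for the last factor). `RSC`: `f_{φ j} → a` in the mean, `a ≥ 0`. If
`a > 0`: `η_j/(v_j + δ_j) = exp (- L_j f_j) ≤ exp (- L_j a/2) + (2/a) |f_j - a|` (both cases `f_j ≥ a/2`, `f_j < a/2`), so `q ≤ E_j[η_j/(v_j + δ_j)] → 0`, a contradiction. So `a = 0`, `E_j[f_j] → 0`, and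
`v_j ≤ √η_j + 2 M f_j` (`v_j + δ_j = η_j exp (L_j f_j) ≤ √η_j` if `f_j ≤ 1/2`): `E_j[v_j] → 0`. -/
def S_RVZ : Prop := ∀ {n : ℕ} (T : Set (Cn n)) {G : Type u} [Group G]
  (R : G → Cn n → Cn n → Prop) (H : Cn n → Matrix (Fin n) (Fin n) ℂ), KEt T R H →
  ∀ κ, IsPUE T R κ → ∀ K M q : ℝ, 0 < q → ∀ (δ η : ℕ → ℝ) (v : ℕ → Cn n → ℝ)
  (Q : ℕ → Cn n → Matrix (Fin n) (Fin n) ℂ), (∀ j, KEt T R (Q j)) →
  (∀ j, QPF T R H K fun x => Real.log (dn T κ H (Q j) x)) →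
  (∀ C ⊆ T, IsCompact C → ∃ B : ℝ, ∀ j, ∫ x in C, (Matrix.trace (Q j x * (H x)⁻¹)).re ≤ B) →
  (∀ j, InvF T R (v j)) → (∀ j, ∀ x ∈ T, 0 ≤ v j x ∧ v j x ≤ M) →
  (∀ j, 0 < δ j ∧ δ j ≤ 1 ∧ 0 < η j) → Tendsto η atTop (𝓝 0) →
  (∀ j, ∀ x ∈ T, η j ≤ v j x + δ j) →
  (∀ j, q ≤ avE T κ (Q j) fun x => η j / (v j x + δ j)) →
  (∀ j, avE T κ (Q j) (fun x => (∑ k, ∑ l, (Q j x)⁻¹ l k *
    (cd k (fun y => ((Real.log (v j y + δ j) : ℝ) : ℂ)) x *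
      conj (cd l (fun y => ((Real.log (v j y + δ j) : ℝ) : ℂ)) x))).re) ≤ 1) →
  Tendsto (fun j => avE T κ (Q j) (v j)) atTop (𝓝 0)

/-- RKN. The Levi form of the square of the length of a holomorphic vector field in the kernel. USES: WIRT, LMF,
MCAL, CSY (see `GSNC`, `Helper31/GS/GSNC.lean`).
PROOF. `f := sqT h σ = ∑ h_ij σ_i conj(σ_j)`. With `cd k h = Γ_k h`, `cdb l h = h Γ_lᴴ`, `cdb l σ = 0`: `cd k (cdb l f) = - ∑ crv h x i j k l σ_i conj(σ_j) + (∇_k σ) h (∇_l σ)ᴴ`, `∇_k σ := cd k σ + σ Γ_k`. So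
`lev f x e = - ∑ crv h x i j k l σ_i conj(σ_j) e_k conj(e_l) + |∑ e_k ∇_k σ|²_h`, and the curvature term is `0` because `σ x = σ x P x` (rows) and `P crv = 0`. -/
def S_RKN : Prop := ∀ {n : ℕ} (W : Set (Cn n)), IsOpen W →
  ∀ h P : Cn n → Matrix (Fin n) (Fin n) ℂ, (∀ x ∈ W, (h x).PosDef) →
  (∀ i j, ContDiffOn ℝ ∞ (fun x => h x i j) W) →
  (∀ x ∈ W, ∀ i j l m, ∑ p, P x i p * crv h x p j l m = 0) →
  ∀ σ : Cn n → Cn n, DifferentiableOn ℂ σ W → ∀ x ∈ W, σ x ᵥ* P x = σ x → ∀ e,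
    0 ≤ lev (Pool.Agent.Helper15.RK.sqT h σ) x e

end Pool.Agent.Helper10.RBC
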