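import Pool.Agent.Helper10.RBC.Goals

/-! RBC: pointwise linear algebra `S_RBL`. -/

open Complex Metric Set Filter Topology MeasureTheory
open scoped ContDiff ComplexConjugate ComplexOrder Manifold Matrix MatrixOrder

namespace Pool.Agent.Helper10.RBC

open Pool.Agent.Helper95.Lin Pool.Agent.Helper16.Abund Pool.Agent.Helper92.Orb
  Pool.Agent.Helper10.SP Pool.Agent.Helper95.RK Pool.Agent.Helper57.HS
  Pool.Agent.Helper15.HS Pool.Agent.Helper15.GS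

/-- `β Q⁻¹ β = β` from the trace identity. -/
theorem beta_proj {n : ℕ} (k : ℕ) (h Q P : Matrix (Fin n) (Fin n) ℂ) (hh : h.PosDef)
    (hQ : Q.PosDef) (hPP : P * P = P) (hPh : P * h = h * Pᴴ) (htr : Matrix.trace P = k)
    (h0 : (Matrix.trace (P * h * Q⁻¹ * (P * h) * Q⁻¹)).re -
      2 * (Matrix.trace (P * h * Q⁻¹)).re + k = 0) :
    P * h * Q⁻¹ * (P * h) = P * h := by
  have hhu : IsUnit h.det := hh.det_pos.ne'.isUnit
  have hhH : hᴴ = h := hh.isHermitian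
  have hQi : (Q⁻¹)ᴴ = Q⁻¹ := hQ.inv.isHermitian
  have hhi : (h⁻¹)ᴴ = h⁻¹ := hh.inv.isHermitian
  set β : Matrix (Fin n) (Fin n) ℂ := P * h with hβ
  have hβH : βᴴ = β := by rw [hβ, Matrix.conjTranspose_mul, hhH, ← hPh]
  have hPβ : P * β = β := by rw [hβ, ← Matrix.mul_assoc, hPP]
  have hβP : β * Pᴴ = β := by
    have := congrArg Matrix.conjTranspose hPβ
    rwa [Matrix.conjTranspose_mul, hβH] at this
  have hPeq : P = β * h⁻¹ := by
    rw [hβ, Matrix.mul_assoc, Matrix.mul_nonsing_inv _ hhu, Matrix.mul_one]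
  obtain ⟨S, hS⟩ : ∃ S : Matrix (Fin n) (Fin n) ℂ, β = S * Sᴴ := by
    obtain ⟨L, hL⟩ := CStarAlgebra.nonneg_iff_eq_star_mul_self.mp hh.posSemidef.nonneg
    rw [Matrix.star_eq_conjTranspose] at hL
    refine ⟨P * Lᴴ, ?_⟩
    rw [Matrix.conjTranspose_mul, Matrix.conjTranspose_conjTranspose]
    calc β = β * Pᴴ := hβP.symm
      _ = P * h * Pᴴ := by rw [hβ]
      _ = P * (Lᴴ * L) * Pᴴ := by rw [← hL]
      _ = P * Lᴴ * (L * Pᴴ) := by simp only [Matrix.mul_assoc]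
  set M : Matrix (Fin n) (Fin n) ℂ := Q⁻¹ - h⁻¹ with hM
  have hMH : Mᴴ = M := by rw [hM, Matrix.conjTranspose_sub, hQi, hhi]
  set K : Matrix (Fin n) (Fin n) ℂ := Sᴴ * M * S with hK
  have hKH : Kᴴ = K := by
    rw [hK, Matrix.conjTranspose_mul, Matrix.conjTranspose_mul, Matrix.conjTranspose_conjTranspose,
      hMH, Matrix.mul_assoc]
  have hN : β * M = β * Q⁻¹ - P := by
    rw [hM, Matrix.mul_sub, ← hPeq]
  have htrK : Matrix.trace (K * Kᴴ) = Matrix.trace ((β * M) * (β * M)) := by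
    rw [hKH, hK, hS]
    have e1 : Sᴴ * M * S * (Sᴴ * M * S) = Sᴴ * (M * S * Sᴴ * M * S) := by
      simp only [Matrix.mul_assoc]
    rw [e1, Matrix.trace_mul_comm]
    have e2 : M * S * Sᴴ * M * S * Sᴴ = (M * (S * Sᴴ)) * (M * (S * Sᴴ)) := by
      simp only [Matrix.mul_assoc]
    rw [e2]
    have e3 : M * (S * Sᴴ) * (M * (S * Sᴴ)) = M * ((S * Sᴴ) * (M * (S * Sᴴ))) := by
      simp only [Matrix.mul_assoc]
    rw [e3, Matrix.trace_mul_comm]
    simp only [Matrix.mul_assoc]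
  have htr2 : Matrix.trace ((β * M) * (β * M)) =
      Matrix.trace (β * Q⁻¹ * β * Q⁻¹) - 2 * Matrix.trace (β * Q⁻¹) + k := by
    rw [hN, Matrix.sub_mul, Matrix.mul_sub, Matrix.mul_sub]
    have e1 : Matrix.trace (β * Q⁻¹ * P) = Matrix.trace (β * Q⁻¹) := by
      rw [Matrix.trace_mul_comm, ← Matrix.mul_assoc, hPβ]
    have e2 : Matrix.trace (P * (β * Q⁻¹)) = Matrix.trace (β * Q⁻¹) := by
      rw [← Matrix.mul_assoc, hPβ]
    rw [Matrix.trace_sub, Matrix.trace_sub, Matrix.trace_sub, e1, e2, hPP, htr]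
    have e3 : β * Q⁻¹ * (β * Q⁻¹) = β * Q⁻¹ * β * Q⁻¹ := by simp only [Matrix.mul_assoc]
    rw [e3]
    ring
  have hpos : 0 ≤ Matrix.trace (K * Kᴴ) :=
    (Matrix.posSemidef_self_mul_conjTranspose K).trace_nonneg
  have hexp : (Matrix.trace (K * Kᴴ)).re = (Matrix.trace (β * Q⁻¹ * β * Q⁻¹)).re -
      2 * (Matrix.trace (β * Q⁻¹)).re + k := by
    rw [htrK, htr2]
    simp
  rw [← hexp] at h0
  have hK0 : K = 0 := by
    have h1 : Matrix.trace (K * Kᴴ) = 0 := by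
      refine Complex.ext h0 ?_
      exact (Complex.nonneg_iff.1 hpos).2.symm
    exact Matrix.trace_mul_conjTranspose_self_eq_zero_iff.1 h1
  have h1 : β * M * β = 0 := by
    have : β * M * β = S * K * Sᴴ := by
      rw [hK, hS]
      simp only [Matrix.mul_assoc]
    rw [this, hK0, Matrix.mul_zero, Matrix.zero_mul]
  rw [hN, Matrix.sub_mul, hPβ] at h1
  exact sub_eq_zero.1 h1

/-- RBL -/
theorem rbl : S_RBL := by
  intro n k h Q P hh hQ hPP hPh htr h0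
  have hb := beta_proj k h Q P hh hQ hPP hPh htr h0
  have hhu : IsUnit h.det := hh.det_pos.ne'.isUnit
  have hQu : IsUnit Q.det := hQ.det_pos.ne'.isUnit
  have hhH : hᴴ = h := hh.isHermitian
  have hQH : Qᴴ = Q := hQ.isHermitian
  have hQi : (Q⁻¹)ᴴ = Q⁻¹ := hQ.inv.isHermitian
  have hhi : (h⁻¹)ᴴ = h⁻¹ := hh.inv.isHermitian
  set β : Matrix (Fin n) (Fin n) ℂ := P * h with hβ
  have hβH : βᴴ = β := by rw [hβ, Matrix.conjTranspose_mul, hhH, ← hPh]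
  have hPβ : P * β = β := by rw [hβ, ← Matrix.mul_assoc, hPP]
  have hβP : β * Pᴴ = β := by
    have := congrArg Matrix.conjTranspose hPβ
    rwa [Matrix.conjTranspose_mul, hβH] at this
  have hPi : h⁻¹ * P = Pᴴ * h⁻¹ := by
    have e1 : h⁻¹ * (P * h) * h⁻¹ = h⁻¹ * (h * Pᴴ) * h⁻¹ := by rw [← hβ, hPh]
    rw [← Matrix.mul_assoc, Matrix.mul_assoc (h⁻¹ * P), Matrix.mul_nonsing_inv _ hhu,
      Matrix.mul_one, ← Matrix.mul_assoc, Matrix.nonsing_inv_mul _ hhu, Matrix.one_mul] at e1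
    exact e1
  obtain ⟨s, hs⟩ : ∃ s : Matrix (Fin n) (Fin n) ℂ, h⁻¹ = sᴴ * s := by
    obtain ⟨L, hL⟩ := CStarAlgebra.nonneg_iff_eq_star_mul_self.mp hh.inv.posSemidef.nonneg
    exact ⟨L, by rwa [Matrix.star_eq_conjTranspose] at hL⟩
  obtain ⟨q, hq⟩ : ∃ q : Matrix (Fin n) (Fin n) ℂ, Q = qᴴ * q := by
    obtain ⟨L, hL⟩ := CStarAlgebra.nonneg_iff_eq_star_mul_self.mp hQ.posSemidef.nonneg
    exact ⟨L, by rwa [Matrix.star_eq_conjTranspose] at hL⟩
  set D : Matrix (Fin n) (Fin n) ℂ := β * Q⁻¹ - P with hD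
  have hDQ : D * Q = β - P * Q := by
    rw [hD, Matrix.sub_mul, Matrix.mul_assoc, Matrix.nonsing_inv_mul _ hQu, Matrix.mul_one]
  have hDH : Dᴴ = Q⁻¹ * β - Pᴴ := by
    rw [hD, Matrix.conjTranspose_sub, Matrix.conjTranspose_mul, hβH, hQi]
  have hDD : D * Q * Dᴴ = P * Q * Pᴴ - β := by
    rw [hDQ, hDH, Matrix.sub_mul, Matrix.mul_sub, Matrix.mul_sub, ← Matrix.mul_assoc β, hb, hβP,
      Matrix.mul_assoc P Q (Q⁻¹ * β), ← Matrix.mul_assoc Q, Matrix.mul_nonsing_inv _ hQu,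
      Matrix.one_mul, hPβ]
    abel
  have htr1 : Matrix.trace (h⁻¹ * (D * Q * Dᴴ)) = Matrix.trace (P * Q * h⁻¹) - k := by
    rw [hDD, Matrix.mul_sub, Matrix.trace_sub]
    have e1 : Matrix.trace (h⁻¹ * (P * Q * Pᴴ)) = Matrix.trace (P * Q * h⁻¹) := by
      rw [← Matrix.mul_assoc, ← Matrix.mul_assoc, hPi, Matrix.trace_mul_comm]
      have e2 : Pᴴ * (Pᴴ * h⁻¹ * Q) = Pᴴ * Pᴴ * h⁻¹ * Q := by simp only [Matrix.mul_assoc]
      have e3 : Pᴴ * Pᴴ = Pᴴ := by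
        rw [← Matrix.conjTranspose_mul, hPP]
      rw [e2, e3, ← hPi, Matrix.mul_assoc, Matrix.trace_mul_comm]
    have e4 : Matrix.trace (h⁻¹ * β) = k := by
      rw [hβ, Matrix.trace_mul_comm, Matrix.mul_assoc, Matrix.mul_nonsing_inv _ hhu,
        Matrix.mul_one, htr]
    rw [e1, e4]
  have htr3 : Matrix.trace (h⁻¹ * (D * Q * Dᴴ)) =
      Matrix.trace ((s * D * qᴴ) * (s * D * qᴴ)ᴴ) := by
    have e1 : (s * D * qᴴ) * (s * D * qᴴ)ᴴ = s * (D * Q * Dᴴ * sᴴ) := by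
      rw [Matrix.conjTranspose_mul, Matrix.conjTranspose_mul, Matrix.conjTranspose_conjTranspose,
        hq]
      simp only [Matrix.mul_assoc]
    rw [e1, Matrix.trace_mul_comm s, hs]
    have e2 : D * Q * Dᴴ * sᴴ * s = (D * Q * Dᴴ) * (sᴴ * s) := by simp only [Matrix.mul_assoc]
    rw [e2, Matrix.trace_mul_comm]
  have hnn : 0 ≤ Matrix.trace ((s * D * qᴴ) * (s * D * qᴴ)ᴴ) :=
    (Matrix.posSemidef_self_mul_conjTranspose _).trace_nonneg
  have hre : (Matrix.trace (P * Q * h⁻¹)).re - k =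
      (Matrix.trace ((s * D * qᴴ) * (s * D * qᴴ)ᴴ)).re := by
    rw [← htr3, htr1]
    simp
  refine ⟨?_, fun hz => ?_⟩
  · rw [hre]
    exact (Complex.nonneg_iff.1 hnn).1
  · rw [hre] at hz
    have h1 : Matrix.trace ((s * D * qᴴ) * (s * D * qᴴ)ᴴ) = 0 :=
      Complex.ext hz (Complex.nonneg_iff.1 hnn).2.symm
    have h2 : s * D * qᴴ = 0 := Matrix.trace_mul_conjTranspose_self_eq_zero_iff.1 h1
    have hsu : IsUnit s.det := by
      have h3 : (h⁻¹).det ≠ 0 := hh.inv.det_pos.ne'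
      rw [hs, Matrix.det_mul] at h3
      exact isUnit_iff_ne_zero.2 (right_ne_zero_of_mul h3)
    have hqu : IsUnit (qᴴ).det := by
      have h3 : Q.det ≠ 0 := hQ.det_pos.ne'
      rw [hq, Matrix.det_mul] at h3
      exact isUnit_iff_ne_zero.2 (left_ne_zero_of_mul h3)
    have h4 : D = 0 := by
      have h5 : s⁻¹ * (s * D * qᴴ) * (qᴴ)⁻¹ = D := by
        rw [Matrix.mul_assoc s, ← Matrix.mul_assoc s⁻¹, Matrix.nonsing_inv_mul _ hsu,
          Matrix.one_mul, Matrix.mul_assoc, Matrix.mul_nonsing_inv _ hqu, Matrix.mul_one]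
      rw [← h5, h2, Matrix.mul_zero, Matrix.zero_mul]
    rw [h4, Matrix.zero_mul] at hDQ
    exact (sub_eq_zero.1 hDQ.symm).symm

end Pool.Agent.Helper10.RBC
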