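import Pool.Agent.Helper10.RBC.Rbl
import Pool.Agent.Helper87.HS.CLG
import Pool.Agent.Helper80.HS.CL
import Pool.Agent.Helper56.GS.GB5
import Pool.Agent.Helper97.HS.MOMP

/-! RBC: the relation `P Q = P h` (`S_RBO`). -/

open Complex Metric Set Filter Topology MeasureTheory
open scoped ContDiff ComplexConjugate ComplexOrder Manifold Matrix MatrixOrder

namespace Pool.Agent.Helper10.RBC

open Pool.Agent.Helper95.Lin Pool.Agent.Helper16.Abund Pool.Agent.Helper92.Orb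
  Pool.Agent.Helper10.SP Pool.Agent.Helper95.RK Pool.Agent.Helper57.HS
  Pool.Agent.Helper15.HS Pool.Agent.Helper15.GS Pool.Agent.Helper57.RBC
  Pool.Agent.Helper87.HS

universe u v

/-- The Laplacian of `tr (P Q h⁻¹)`, local form. -/
theorem rbo_lap (hW : S_WIRT) (hM : S_MCAL) (hC : S_CSY) (hPar : S_PARP) {n : ℕ}
    (W : Set (Cn n)) (hWo : IsOpen W) (h Q P : Cn n → Matrix (Fin n) (Fin n) ℂ)
    (hhs : ∀ i j, ContDiffOn ℝ ∞ (fun x => h x i j) W) (hhp : ∀ x ∈ W, (h x).PosDef)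
    (hQ : CHF Q W) (hpos : ∀ x ∈ W, (Q x).PosDef)
    (hP : ∀ i j, DifferentiableOn ℂ (fun x => P x i j) W) (hPP : ∀ x ∈ W, P x * P x = P x)
    (hPh : ∀ x ∈ W, P x * h x = h x * (P x)ᴴ) (k : ℕ) (htr : ∀ x ∈ W, Matrix.trace (P x) = k)
    (hnull : ∀ x ∈ W, ∀ i j l m, ∑ p, P x i p * crv h x p j l m = 0)
    (hrho : ∀ x ∈ W, rho Q x = Q x - P x * h x) :
    ContDiffOn ℝ ∞ (fun y => (Matrix.trace (P y * Q y * (h y)⁻¹)).re) W ∧
    ∀ x ∈ W, (Matrix.trace (P x * Q x * (h x)⁻¹)).re - k ≤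
      (trL Q (fun y => (Matrix.trace (P y * Q y * (h y)⁻¹)).re) x).re := by
  have hPs : ∀ i j, ContDiffOn ℝ ∞ (fun x => P x i j) W := fun i j =>
    Pool.Agent.Helper95.Lin.holo_contDiffOn_real hWo (hP i j)
  have hPb : ∀ y ∈ W, ∀ l, cdbM l P y = 0 := by
    intro y hy l
    ext i j
    exact ((hW W hWo _ _ (hPs i j) (hPs i j)).2.2.2.2.2.2 (hP i j)) l y hy
  have hQs := hQ.smooth
  have hdet : ∀ x ∈ W, (Q x).det ≠ 0 := fun x hx => (hpos x hx).det_pos.ne'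
  have hdeth : ∀ x ∈ W, (h x).det ≠ 0 := fun x hx => (hhp x hx).det_pos.ne'
  have hQi1 : ∀ x ∈ W, Q x * (Q x)⁻¹ = 1 := fun x hx =>
    Matrix.mul_nonsing_inv _ (isUnit_iff_ne_zero.2 (hdet x hx))
  have hQi2 : ∀ x ∈ W, (Q x)⁻¹ * Q x = 1 := fun x hx =>
    Matrix.nonsing_inv_mul _ (isUnit_iff_ne_zero.2 (hdet x hx))
  have hhi1 : ∀ x ∈ W, h x * (h x)⁻¹ = 1 := fun x hx =>
    Matrix.mul_nonsing_inv _ (isUnit_iff_ne_zero.2 (hdeth x hx))
  have hhi2 : ∀ x ∈ W, (h x)⁻¹ * h x = 1 := fun x hx =>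
    Matrix.nonsing_inv_mul _ (isUnit_iff_ne_zero.2 (hdeth x hx))
  have hPi : ∀ x ∈ W, (h x)⁻¹ * P x = (P x)ᴴ * (h x)⁻¹ := by
    intro x hx
    have e1 : (h x)⁻¹ * (P x * h x) * (h x)⁻¹ = (h x)⁻¹ * (h x * (P x)ᴴ) * (h x)⁻¹ := by
      rw [hPh x hx]
    rw [← Matrix.mul_assoc, Matrix.mul_assoc ((h x)⁻¹ * P x), hhi1 x hx,
      Matrix.mul_one, ← Matrix.mul_assoc, hhi2 x hx, Matrix.one_mul] at e1
    exact e1
  obtain ⟨hQd, -, hQm, hQinv, -⟩ := hM W hWo Q Q hQs hQs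
  obtain ⟨hKs, -⟩ := hQinv hdet
  obtain ⟨hhd, -, hhm, hhinv, -⟩ := hM W hWo h h hhs hhs
  obtain ⟨hIs, hId⟩ := hhinv hdeth
  -- the derivatives of `Q` and `h`
  have hGam : ∀ x ∈ W, ∀ l, cdM l Q x = Gam Q l x * Q x := by
    intro x hx l
    rw [Gam, Matrix.mul_assoc, hQi2 x hx, Matrix.mul_one]
  have hGamh : ∀ x ∈ W, ∀ l, cdM l h x = Gam h l x * h x := by
    intro x hx l
    rw [Gam, Matrix.mul_assoc, hhi2 x hx, Matrix.mul_one]
  have hQb : ∀ x ∈ W, ∀ l, cdbM l Q x = Q x * (Gam Q l x)ᴴ := by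
    intro x hx l
    have h1 := (hQm x hx l).2.2.1
    have h2 : cdM l (fun y => (Q y)ᴴ) x = cdM l Q x :=
      cdM_congr (eqOn_nhds hWo hx fun y hy => (hQ.herm y hy).eq) l
    rw [h2, hGam x hx l] at h1
    have h3 := congrArg Matrix.conjTranspose h1
    rw [Matrix.conjTranspose_conjTranspose, Matrix.conjTranspose_mul, (hQ.herm x hx).eq] at h3
    exact h3.symm
  have hhb : ∀ x ∈ W, ∀ l, cdbM l h x = h x * (Gam h l x)ᴴ := by
    intro x hx l
    have h1 := (hhm x hx l).2.2.1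
    have h2 : cdM l (fun y => (h y)ᴴ) x = cdM l h x :=
      cdM_congr (eqOn_nhds hWo hx fun y hy => (hhp y hy).isHermitian.eq) l
    rw [h2, hGamh x hx l] at h1
    have h3 := congrArg Matrix.conjTranspose h1
    rw [Matrix.conjTranspose_conjTranspose, Matrix.conjTranspose_mul,
      (hhp x hx).isHermitian.eq] at h3
    exact h3.symm
  have hIk : ∀ x ∈ W, ∀ l, cdM l (fun y => (h y)⁻¹) x = - ((h x)⁻¹ * Gam h l x) := by
    intro x hx l
    rw [(hId x hx l).1, hGamh x hx l, Matrix.mul_assoc, Matrix.mul_assoc (Gam h l x), hhi1 x hx,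
      Matrix.mul_one]
  have hIb : ∀ x ∈ W, ∀ l, cdbM l (fun y => (h y)⁻¹) x = - ((Gam h l x)ᴴ * (h x)⁻¹) := by
    intro x hx l
    rw [(hId x hx l).2, hhb x hx l, ← Matrix.mul_assoc, hhi2 x hx, Matrix.one_mul]
  -- the connections are smooth
  have hGs : ∀ k i j, ContDiffOn ℝ ∞ (fun x => Gam Q k x i j) W := by
    intro k
    exact (hM W hWo (cdM k Q) (fun y => (Q y)⁻¹) (fun i j => (hQd k i j).1) hKs).2.1
  have hGhs : ∀ k i j, ContDiffOn ℝ ∞ (fun x => Gam h k x i j) W := by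
    intro k
    exact (hM W hWo (cdM k h) (fun y => (h y)⁻¹) (fun i j => (hhd k i j).1) hIs).2.1
  have hAs : ∀ k i j, ContDiffOn ℝ ∞ (fun x => (Gam Q k x - Gam h k x) i j) W := by
    intro k i j
    exact (hGs k i j).sub (hGhs k i j)
  -- products
  obtain ⟨-, hPQs, hPQm, -, -⟩ := hM W hWo P Q hPs hQs
  obtain ⟨-, hNs, hNm, -, -⟩ := hM W hWo (fun y => P y * Q y) (fun y => (h y)⁻¹) hPQs hIs
  obtain ⟨-, hQIs, hQIm, -, -⟩ := hM W hWo Q (fun y => (h y)⁻¹) hQs hIs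
  obtain ⟨-, hZs, hZm, -, -⟩ := hM W hWo (fun y => Q y * (h y)⁻¹) P hQIs hPs
  have hsm : ContDiffOn ℝ ∞ (fun y => (Matrix.trace (P y * Q y * (h y)⁻¹)).re) W :=
    Complex.reCLM.contDiff.comp_contDiffOn (tr_smooth hNs)
  refine ⟨hsm, fun x hx => ?_⟩
  set F : Cn n → ℂ := fun y => Matrix.trace (P y * Q y * (h y)⁻¹) with hF
  have hFs : ContDiffOn ℝ ∞ F W := tr_smooth hNs
  -- reality of the trace
  have hre : ∀ y ∈ W, (((F y).re : ℝ) : ℂ) = F y := by
    intro y hy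
    rw [← Complex.conj_eq_iff_re]
    have h1 : conj (F y) = Matrix.trace ((P y * Q y * (h y)⁻¹)ᴴ) := by
      rw [Matrix.trace_conjTranspose]; rfl
    rw [h1, Matrix.conjTranspose_mul, Matrix.conjTranspose_mul, Matrix.conjTranspose_nonsing_inv,
      (hQ.herm y hy).eq, (hhp y hy).isHermitian.eq, Matrix.trace_mul_comm, Matrix.mul_assoc,
      ← hPi y hy, ← Matrix.mul_assoc, Matrix.trace_mul_comm, ← Matrix.mul_assoc]
  -- first derivative of `F`
  have hF1 : ∀ y ∈ W, ∀ k, cd k F y =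
      Matrix.trace ((Gam Q k y - Gam h k y) * (Q y * (h y)⁻¹ * P y)) := by
    intro y hy k
    rw [hF, cd_tr hWo hNs hy, (hNm y hy k).1, (hPQm y hy k).1, hIk y hy k, hGam y hy k,
      (hPar W hWo h P hhp hhs hP hPh y hy k).1]
    have e1 : Matrix.trace (P y * Q y * -((h y)⁻¹ * Gam h k y)) =
        - Matrix.trace (Gam h k y * P y * Q y * (h y)⁻¹) := by
      rw [Matrix.mul_neg, Matrix.trace_neg]
      congr 1
      rw [← Matrix.mul_assoc, Matrix.trace_mul_comm]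
      simp only [Matrix.mul_assoc]
    have e2 : Matrix.trace ((Gam Q k y - Gam h k y) * (Q y * (h y)⁻¹ * P y)) =
        Matrix.trace (P y * (Gam Q k y * Q y) * (h y)⁻¹) -
          Matrix.trace (P y * Gam h k y * Q y * (h y)⁻¹) := by
      rw [← Matrix.mul_assoc, Matrix.trace_mul_comm, Matrix.sub_mul, Matrix.mul_sub,
        Matrix.trace_sub]
      simp only [Matrix.mul_assoc]
    rw [Matrix.trace_add, e1, e2, Matrix.add_mul, Matrix.trace_add, Matrix.sub_mul,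
      Matrix.sub_mul, Matrix.trace_sub]
    ring
  have hZb : ∀ y ∈ W, ∀ l, cdbM l (fun z => Q z * (h z)⁻¹ * P z) y =
      Q y * (Gam Q l y - Gam h l y)ᴴ * (h y)⁻¹ * P y := by
    intro y hy l
    rw [(hZm y hy l).2.1, (hQIm y hy l).2.1, hPb y hy l, hQb y hy l, hIb y hy l, Matrix.mul_zero,
      add_zero, Matrix.conjTranspose_sub]
    simp only [Matrix.mul_neg, Matrix.mul_sub, Matrix.sub_mul, Matrix.add_mul, Matrix.neg_mul,
      Matrix.mul_assoc]
    abel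
  -- `P` annihilates the curvature
  have hPG : ∀ l k, P x * cdbM l (Gam h k) x = 0 := by
    intro l k
    have e1 : P x * (cdbM l (Gam h k) x * h x) = 0 := by
      ext i j
      rw [Matrix.mul_apply, Matrix.zero_apply]
      have e2 := hnull x hx i j k l
      have e3 : ∑ p, P x i p * (cdbM l (Gam h k) x * h x) p j =
          - ∑ p, P x i p * crv h x p j k l := by
        rw [← Finset.sum_neg_distrib]
        refine Finset.sum_congr rfl fun p _ => ?_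
        rw [(hC W hWo h hhp hhs x hx).1 p j k l]
        ring
      rw [e3, e2, neg_zero]
    calc P x * cdbM l (Gam h k) x = P x * (cdbM l (Gam h k) x * h x) * (h x)⁻¹ := by
          rw [← Matrix.mul_assoc, Matrix.mul_assoc _ (h x), hhi1 x hx, Matrix.mul_one]
      _ = 0 := by rw [e1, Matrix.zero_mul]
  have hLM : ∀ k l, LM (fun y => (F y).re) x k l =
      Matrix.trace (cdbM l (Gam Q k) x * (Q x * (h x)⁻¹ * P x)) +
      Matrix.trace ((P x * (Gam Q k x - Gam h k x)) * Q x *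
        (P x * (Gam Q l x - Gam h l x))ᴴ * (h x)⁻¹) := by
    intro k l
    have h0 : ∀ y ∈ W, cdb l (fun z => (((F z).re : ℝ) : ℂ)) y =
        cdb l F y := fun y hy => cdb_congr (eqOn_nhds hWo hy hre) l
    have h1 : LM (fun y => (F y).re) x k l = cd k (cdb l F) x := by
      simp only [LM, Matrix.of_apply]
      exact cd_congr (eqOn_nhds hWo hx h0) k
    rw [h1, ((hW W hWo F F hFs hFs).2.2.2.2.1 k l x hx).2.2]
    have h2 : cdb l (cd k F) x =
        cdb l (fun y => Matrix.trace ((Gam Q k y - Gam h k y) * (Q y * (h y)⁻¹ * P y))) x :=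
      cdb_congr (eqOn_nhds hWo hx fun y hy => hF1 y hy k) l
    obtain ⟨-, hPs', hPm, -, -⟩ := hM W hWo (fun y => Gam Q k y - Gam h k y)
      (fun y => Q y * (h y)⁻¹ * P y) (hAs k) hZs
    rw [h2, cdb_tr hWo hPs' hx, (hPm x hx l).2.1, hZb x hx l,
      cdbM_sub hWo (hGs k) (hGhs k) hx l, Matrix.trace_add, Matrix.sub_mul, Matrix.trace_sub]
    have e1 : Matrix.trace (cdbM l (Gam h k) x * (Q x * (h x)⁻¹ * P x)) = 0 := by
      rw [← Matrix.mul_assoc, Matrix.trace_mul_comm, ← Matrix.mul_assoc, hPG l k,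
        Matrix.zero_mul, Matrix.trace_zero]
    have e2 : Matrix.trace ((Gam Q k x - Gam h k x) *
        (Q x * (Gam Q l x - Gam h l x)ᴴ * (h x)⁻¹ * P x)) =
        Matrix.trace ((P x * (Gam Q k x - Gam h k x)) * Q x *
        (P x * (Gam Q l x - Gam h l x))ᴴ * (h x)⁻¹) := by
      rw [Matrix.conjTranspose_mul]
      have e3 : (h x)⁻¹ * P x = (P x)ᴴ * (h x)⁻¹ * P x := by
        rw [← hPi x hx, Matrix.mul_assoc, hPP x hx]
      have e4 : (Gam Q k x - Gam h k x) * (Q x * (Gam Q l x - Gam h l x)ᴴ * (h x)⁻¹ * P x) =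
          ((Gam Q k x - Gam h k x) * (Q x * (Gam Q l x - Gam h l x)ᴴ * ((P x)ᴴ * (h x)⁻¹))) *
            P x := by
        rw [Matrix.mul_assoc _ (h x)⁻¹ (P x), e3]
        simp only [Matrix.mul_assoc]
      rw [e4, Matrix.trace_mul_comm]
      simp only [Matrix.mul_assoc]
    rw [e1, sub_zero, e2]
  -- the sum over the curvature
  have hcurv : ∑ k, ∑ l, (Q x)⁻¹ l k • (cdbM l (Gam Q k) x) = rho Q x * (Q x)⁻¹ := by
    have h1 : (∑ k, ∑ l, (Q x)⁻¹ l k • (- cdbM l (Gam Q k) x)) * Q x = - rho Q x := by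
      ext i j
      obtain ⟨c1, -, c3⟩ := hC W hWo Q hpos hQs x hx
      have c4 := (c3 hQ).2 i j
      rw [Matrix.neg_apply, ← c4]
      simp only [Finset.sum_mul, Matrix.sum_apply, Matrix.smul_mul, Matrix.smul_apply,
        Matrix.neg_mul, Matrix.neg_apply, c1, smul_eq_mul]
    have h2 : (∑ k, ∑ l, (Q x)⁻¹ l k • (cdbM l (Gam Q k) x)) =
        - (∑ k, ∑ l, (Q x)⁻¹ l k • (- cdbM l (Gam Q k) x)) := by
      simp only [smul_neg, Finset.sum_neg_distrib, neg_neg]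
    rw [h2]
    calc - (∑ k, ∑ l, (Q x)⁻¹ l k • (- cdbM l (Gam Q k) x))
        = - ((∑ k, ∑ l, (Q x)⁻¹ l k • (- cdbM l (Gam Q k) x)) * Q x * (Q x)⁻¹) := by
          rw [Matrix.mul_assoc, hQi1 x hx, Matrix.mul_one]
      _ = _ := by rw [h1, Matrix.neg_mul, neg_neg]
  have htrL : trL Q (fun y => (F y).re) x =
      ∑ k, ∑ l, (Q x)⁻¹ l k * LM (fun y => (F y).re) x k l := by
    rw [trL, Matrix.trace]
    simp only [Matrix.diag_apply, Matrix.mul_apply]
    rw [Finset.sum_comm]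
  have hfirst : ∑ k, ∑ l, (Q x)⁻¹ l k * (Matrix.trace (cdbM l (Gam Q k) x *
      (Q x * (h x)⁻¹ * P x))) = F x - k := by
    have h1 : ∑ k, ∑ l, (Q x)⁻¹ l k * (Matrix.trace (cdbM l (Gam Q k) x *
      (Q x * (h x)⁻¹ * P x))) = Matrix.trace ((∑ k, ∑ l, (Q x)⁻¹ l k • (cdbM l (Gam Q k) x)) *
        (Q x * (h x)⁻¹ * P x)) := by
      simp only [Finset.sum_mul, Matrix.trace_sum, Matrix.smul_mul, Matrix.trace_smul,
        smul_eq_mul]
    have h3 : rho Q x * (Q x)⁻¹ * (Q x * (h x)⁻¹ * P x) =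
        Q x * (h x)⁻¹ * P x - P x := by
      rw [hrho x hx]
      have : (Q x - P x * h x) * (Q x)⁻¹ * (Q x * (h x)⁻¹ * P x) =
          (Q x - P x * h x) * (((Q x)⁻¹ * Q x) * ((h x)⁻¹ * P x)) := by
        simp only [Matrix.mul_assoc]
      rw [this, hQi2 x hx, Matrix.one_mul, Matrix.sub_mul, ← Matrix.mul_assoc,
        ← Matrix.mul_assoc (P x * h x), Matrix.mul_assoc (P x) (h x), hhi1 x hx, Matrix.mul_one,
        hPP x hx]
    rw [h1, hcurv, h3, Matrix.trace_sub, htr x hx, hF]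
    simp only
    rw [Matrix.mul_assoc (P x), Matrix.trace_mul_comm (P x)]
  have hAA : 0 ≤ ∑ k, ∑ l, (Q x)⁻¹ l k *
      Matrix.trace ((P x * (Gam Q k x - Gam h k x)) * Q x *
        (P x * (Gam Q l x - Gam h l x))ᴴ * (h x)⁻¹) :=
    Pool.Agent.Helper80.HS.sum_tr_nonneg (hpos x hx).inv.posSemidef
      (fun k => P x * (Gam Q k x - Gam h k x)) (hpos x hx).posSemidef (hhp x hx).inv.posSemidef
  have hfin : trL Q (fun y => (F y).re) x = (F x - k) + ∑ k, ∑ l, (Q x)⁻¹ l k *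
      Matrix.trace ((P x * (Gam Q k x - Gam h k x)) * Q x *
        (P x * (Gam Q l x - Gam h l x))ᴴ * (h x)⁻¹) := by
    rw [htrL, ← hfirst]
    simp only [hLM, mul_add, Finset.sum_add_distrib]
  rw [hfin, Complex.add_re]
  have hAA' := (Complex.nonneg_iff.1 hAA).1
  simp only [Complex.sub_re, Complex.natCast_re]
  linarith

/-- `tr (Y h⁻¹ Z h⁻¹)` is invariant. -/
theorem tr2_inv (hIFN : S_IFN.{u}) {n : ℕ} {T : Set (Cn n)} {G : Type u} [Group G]
    {R : G → Cn n → Cn n → Prop} (hE : Et T R) {h Y Z : Cn n → Matrix (Fin n) (Fin n) ℂ}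
    (hh : HerT T R h) (hY : InvH R Y) (hZ : InvH R Z) (γ : G) (x y : Cn n) (hxy : R γ x y) :
    Matrix.trace (Y x * (h x)⁻¹ * (Z x * (h x)⁻¹)) =
      Matrix.trace (Y y * (h y)⁻¹ * (Z y * (h y)⁻¹)) := by
  have a1 := ((hIFN T R hE h Y hh hY).2 γ x y hxy).2.2
  have a2 := ((hIFN T R hE h Z hh hZ).2 γ x y hxy).2.2
  have a3 := ((hIFN T R hE h (fun x => Y x + Z x) hh
    (Pool.Agent.Helper97.HS.invH_ad hY hZ)).2 γ x y hxy).2.2
  have key : ∀ z : Cn n, Matrix.trace ((Y z + Z z) * (h z)⁻¹ * ((Y z + Z z) * (h z)⁻¹)) =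
      Matrix.trace (Y z * (h z)⁻¹ * (Y z * (h z)⁻¹)) +
      Matrix.trace (Z z * (h z)⁻¹ * (Z z * (h z)⁻¹)) +
      2 * Matrix.trace (Y z * (h z)⁻¹ * (Z z * (h z)⁻¹)) := by
    intro z
    rw [Matrix.add_mul, Matrix.mul_add, Matrix.add_mul, Matrix.add_mul, Matrix.trace_add,
      Matrix.trace_add, Matrix.trace_add, Matrix.trace_mul_comm (Z z * (h z)⁻¹) (Y z * (h z)⁻¹)]
    ring
  rw [key, key, a1, a2] at a3
  have a4 := add_left_cancel a3
  exact mul_left_cancel₀ two_ne_zero a4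

/-- RBO -/
theorem rbo (hPUE : Pool.Agent.Helper10.SP.S_PUE.{u}) (hW : S_WIRT) (hM : S_MCAL) (hC : S_CSY)
    (hPar : S_PARP) (hIFN : S_IFN.{u}) (hTRI : Pool.Agent.Helper95.HS.S_TRI.{u})
    (hNULL0 : Pool.Agent.Helper95.HS.S_NULL0.{u}) (hKETP : Pool.Agent.Helper95.HS.S_KETP.{u}) :
    S_RBO.{u} := by
  intro n T G _ R H h hD k P hP Q hQ h0
  obtain ⟨hQk, hQe⟩ := hQ
  have hopen : IsOpen T := hD.ket.et.isOpen
  obtain ⟨κ, hκ⟩ := hPUE T R hD.ket.et
  obtain ⟨-, hCQ, hQI⟩ := (hKETP T R hQk.et).2.1 Q Q hQk hQk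
  have hrho : ∀ x ∈ T, rho Q x = Q x - P x * h x := fun x hx => by
    rw [hQe x hx]
    simp
  obtain ⟨hgs, hlap⟩ := rbo_lap hW hM hC hPar T hopen h Q P hD.her.smooth hD.her.posDef hCQ
    hQk.posDef hP.holo hP.proj hP.herm k hP.tr hP.null hrho
  set g : Cn n → ℝ := fun y => (Matrix.trace (P y * Q y * (h y)⁻¹)).re with hg
  have hgI : InvF T R g := by
    refine ⟨hgs, fun γ x y hxy => ?_⟩
    have hx := (hD.ket.et.mem γ x y hxy).1
    have hy := (hD.ket.et.mem γ x y hxy).2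
    have a1 := tr2_inv hIFN hD.ket.et hD.her hP.inv hQI γ x y hxy
    have a2 : ∀ z ∈ T, P z * h z * (h z)⁻¹ * (Q z * (h z)⁻¹) = P z * Q z * (h z)⁻¹ := by
      intro z hz
      rw [Matrix.mul_assoc (P z), Matrix.mul_nonsing_inv _ (hD.her.posDef z hz).det_pos.ne'.isUnit,
        Matrix.mul_one, Matrix.mul_assoc]
    rw [a2 x hx, a2 y hy] at a1
    simp only [hg]
    rw [a1]
  obtain ⟨htr, -⟩ := (hKETP T R hQk.et).2.2 Q g hQk hgI
  have hbl := fun x hx => rbl k (h x) (Q x) (P x) (hD.her.posDef x hx) (hQk.posDef x hx)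
    (hP.proj x hx) (hP.herm x hx) (hP.tr x hx) (h0 x hx)
  set f : Cn n → ℝ := fun x => g x - k with hf
  have hf0 : ∀ x ∈ T, 0 ≤ f x := fun x hx => (hbl x hx).1
  have hfI : InvF T R f := by
    refine ⟨hgI.1.sub contDiffOn_const, ?_⟩
    intro γ x y hxy
    simp only [hf]
    rw [hgI.2 γ x y hxy]
  have hdc : ContinuousOn (fun x => (Q x).det.re) T :=
    Pool.Agent.Helper56.GS.GB5.det_cont hQk.smooth
  have hint : ∫ x in T, κ x * (Q x).det.re * f x ≤ 0 := by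
    have i1 : IntegrableOn (fun x => κ x * ((Q x).det.re * (trL Q g x).re)) T :=
      (Pool.Agent.Helper56.GS.GB5.testF_mul hopen hκ.test
        (hdc.mul htr.1.continuousOn)).integrableOn
    have i2 : IntegrableOn (fun x => κ x * ((Q x).det.re * f x)) T :=
      (Pool.Agent.Helper56.GS.GB5.testF_mul hopen hκ.test
        (hdc.mul hfI.1.continuousOn)).integrableOn
    have e2 : ∫ x in T, κ x * ((Q x).det.re * (trL Q g x).re) = 0 := by
      rw [← (hTRI T R Q hQk).2 κ hκ g hgI]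
      refine setIntegral_congr_fun hopen.measurableSet fun x _ => ?_
      ring
    rw [← e2]
    have e1 : ∫ x in T, κ x * (Q x).det.re * f x = ∫ x in T, κ x * ((Q x).det.re * f x) := by
      refine setIntegral_congr_fun hopen.measurableSet fun x _ => ?_
      ring
    rw [e1]
    refine setIntegral_mono_on i2 i1 hopen.measurableSet fun x hx => ?_
    have h1 := hlap x hx
    have h2 : 0 ≤ (Q x).det.re := (Complex.nonneg_iff.1 (hQk.posDef x hx).det_pos.le).1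
    exact mul_le_mul_of_nonneg_left (mul_le_mul_of_nonneg_left h1 h2) (hκ.nonneg x)
  have hz := (hNULL0 T R Q hQk κ hκ).2 f hfI hf0 hint
  intro x hx
  exact (hbl x hx).2 (hz x hx)

end Pool.Agent.Helper10.RBC
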