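import Pool.Agent.Helper10.RBC.Goals
import Pool.Agent.Helper31.GS.GSNC
import Pool.Agent.Helper80.HS.CSY

/-! RBC: the Levi form of the square of the length of a holomorphic vector field (`S_RKN`). -/

open Complex Metric Set Filter Topology MeasureTheory
open scoped ContDiff ComplexConjugate ComplexOrder Manifold Matrix MatrixOrder

namespace Pool.Agent.Helper10.RBC

open Pool.Agent.Helper95.Lin Pool.Agent.Helper16.Abund Pool.Agent.Helper92.Orb
  Pool.Agent.Helper10.SP Pool.Agent.Helper95.RK Pool.Agent.Helper57.HS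
  Pool.Agent.Helper15.HS Pool.Agent.Helper15.GS Pool.Agent.Helper57.RBC
open Pool.Agent.Helper15.RK (sqT)
open Pool.Agent.Helper31.GS (cd_cdb_congr hermi_real)

/-- RKN -/
theorem rkn (hWI : S_WIRT) (hLMF : S_LMF) (hMC : S_MCAL) : S_RKN := by
  intro n W hW h P hpos hsm hnull σ hσ x hx hσP v
  rcases Nat.eq_zero_or_pos n with rfl | hn
  · have h0 : sqT h σ = fun _ => 0 := by
      funext y
      simp [Pool.Agent.Helper15.RK.sqT, hermi]
    have h1 := (hLMF W hW (sqT h σ) (by rw [h0]; exact contDiffOn_const)).2.2.1 x hx v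
    have h2 : hermi (LM (sqT h σ) x) v v = 0 := by
      simp [hermi]
    rw [h2] at h1
    have h3 : lev (sqT h σ) x v = 0 := by exact_mod_cast h1
    exact h3.ge
  set i₀ : Fin n := ⟨0, hn⟩ with hi₀
  have hher : ∀ y ∈ W, (h y).IsHermitian := fun y hy => (hpos y hy).isHermitian
  set Γ : Fin n → Matrix (Fin n) (Fin n) ℂ := fun k => Gam h k x with hΓ
  set S : Cn n → Matrix (Fin n) (Fin n) ℂ := fun y => Matrix.of fun _ j => σ y j with hS
  have hσj : ∀ j, DifferentiableOn ℂ (fun y => σ y j) W := fun j =>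
    (differentiableOn_pi.1 hσ) j
  have hSs : ∀ i j, ContDiffOn ℝ ∞ (fun y => S y i j) W := fun i j =>
    Pool.Agent.Helper95.Lin.holo_contDiffOn_real hW (hσj j)
  have hcdbS : ∀ k, ∀ y ∈ W, cdbM k S y = 0 := by
    intro k y hy
    ext i j
    exact ((hWI W hW _ _ (hSs i j) (hSs i j)).2.2.2.2.2.2 (hσj j)) k y hy
  -- calculus
  have hSt : ∀ i j, ContDiffOn ℝ ∞ (fun y => ((S y)ᴴ) i j) W := by
    intro i j
    simp only [Matrix.conjTranspose_apply]
    exact (Complex.conjCLE.contDiff (n := ∞)).comp_contDiffOn (hSs j i)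
  obtain ⟨hdS, hSh, hSh', -⟩ := hMC W hW S h hSs hsm
  obtain ⟨hcs, -, hcs', -⟩ := hMC W hW h h hsm hsm
  obtain ⟨-, hF, hF', -⟩ := hMC W hW (fun y => S y * h y) (fun y => (S y)ᴴ) hSh hSt
  have hcdcd : ∀ k l, ∀ y ∈ W, cdbM k (cdM l S) y = 0 := by
    intro k l y hy
    rw [← ((hMC W hW S S hSs hSs).2.2.1 y hy l).2.2.2.2 k]
    have := (Pool.Agent.Helper80.HS.cdM_congr hW hy (X := cdbM k S) (Y := fun _ => 0)
      (fun z hz => hcdbS k z hz) l).1
    rw [this]
    ext i j
    exact (Pool.Agent.Helper83.SP.cd_const 0 l y).1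
  have hcdb : ∀ l, ∀ y ∈ W, cdbM l (fun y => S y * h y * (S y)ᴴ) y =
      S y * cdbM l h y * (S y)ᴴ + S y * h y * (cdM l S y)ᴴ := by
    intro l y hy
    rw [(hF' y hy l).2.1, (hSh' y hy l).2.1, hcdbS l y hy, (hSh' y hy l).2.2.2.1,
      Matrix.zero_mul, zero_add]
  have hGam : ∀ k, cdM k h x = Γ k * h x := by
    intro k
    simp only [hΓ, Gam]
    have hdet : IsUnit (h x).det := (hpos x hx).isUnit.map Matrix.detMonoidHom
    rw [Matrix.mul_assoc, Matrix.nonsing_inv_mul _ hdet, Matrix.mul_one]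
  have hGamb : ∀ l, cdbM l h x = h x * (Γ l)ᴴ := by
    intro l
    rw [(Pool.Agent.Helper80.HS.cdM_herm hMC hW h hsm hher hx l).2, hGam,
      Matrix.conjTranspose_mul, (hher x hx).eq]
  set D : Fin n → Matrix (Fin n) (Fin n) ℂ := fun k => cdM k S x + S x * Γ k with hD
  have hmain : ∀ k l, cdM k (cdbM l (fun y => S y * h y * (S y)ᴴ)) x =
      D k * h x * (D l)ᴴ + S x * (cdM k (cdbM l h) x - Γ k * cdbM l h x) * (S x)ᴴ := by
    intro k l
    rw [Pool.Agent.Helper31.GS.cdM_congr hW hx (hcdb l) k]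
    -- first summand
    obtain ⟨-, hA1, hA1', -⟩ := hMC W hW S (cdbM l h) hSs (fun i j => (hcs l i j).2)
    obtain ⟨-, hA2, hA2', -⟩ := hMC W hW (fun y => S y * cdbM l h y) (fun y => (S y)ᴴ) hA1 hSt
    have hN : ∀ i j, ContDiffOn ℝ ∞ (fun y : Cn n => ((cdM l S y)ᴴ) i j) W := by
      intro i j
      simp only [Matrix.conjTranspose_apply]
      exact (Complex.conjCLE.contDiff (n := ∞)).comp_contDiffOn (hdS l j i).1
    obtain ⟨-, hB, hB', -⟩ := hMC W hW (fun y => S y * h y) (fun y => (cdM l S y)ᴴ) hSh hN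
    have hadd : cdM k (fun y => S y * cdbM l h y * (S y)ᴴ + S y * h y * (cdM l S y)ᴴ) x =
        cdM k (fun y => S y * cdbM l h y * (S y)ᴴ) x +
          cdM k (fun y => S y * h y * (cdM l S y)ᴴ) x := by
      ext i j
      have := (hWI W hW _ _ (hA2 i j) (hB i j)).2.1 k x hx
      simpa [cdM, Matrix.add_apply] using this.1
    have hT : cdM k (fun y => (cdM l S y)ᴴ) x = 0 := by
      rw [((hMC W hW (cdM l S) (cdM l S) (fun i j => (hdS l i j).1)
        (fun i j => (hdS l i j).1)).2.2.1 x hx k).2.2.1, hcdcd k l x hx,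
        Matrix.conjTranspose_zero]
    rw [hadd, (hA2' x hx k).1, (hB' x hx k).1, (hA1' x hx k).1, (hSh' x hx k).1,
      (hSh' x hx k).2.2.1, hcdbS k x hx, hT, hGam, hGamb]
    simp only [hD, Matrix.conjTranspose_zero, Matrix.mul_zero, add_zero,
      Matrix.mul_assoc, Matrix.mul_sub, Matrix.add_mul, Matrix.conjTranspose_add,
      Matrix.conjTranspose_mul, Matrix.mul_add,
      Matrix.sub_mul]
    abel
  -- the curvature term vanishes
  have hcrv : ∀ k l, (S x * (cdM k (cdbM l h) x - Γ k * cdbM l h x) * (S x)ᴴ) i₀ i₀ = 0 := by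
    intro k l
    have e1 : S x * (cdM k (cdbM l h) x - Γ k * cdbM l h x) = 0 := by
      ext i q
      rw [Matrix.mul_apply, Matrix.zero_apply]
      have e3 : ∀ p, crv h x p q k l = - (cdM k (cdbM l h) x - Γ k * cdbM l h x) p q := by
        intro p
        unfold crv
        rw [Matrix.sub_apply]
        simp only [hΓ, Gam]
        have e4 : cd k (cdb l fun y => h y p q) x = cdM k (cdbM l h) x p q := by
          simp only [cdM, cdbM, Matrix.of_apply]
        rw [e4]
        ring
      have e5 : ∀ p, S x i p = ∑ a, σ x a * P x a p := by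
        intro p
        have := congrFun hσP p
        simp only [hS, Matrix.of_apply]
        rw [← this]
        simp only [Matrix.vecMul, dotProduct]
      have e6 : ∀ p, (cdM k (cdbM l h) x - Γ k * cdbM l h x) p q = - crv h x p q k l := by
        intro p
        rw [e3 p, neg_neg]
      simp only [e5, e6]
      have e7 : ∑ p, (∑ a, σ x a * P x a p) * - crv h x p q k l =
          - ∑ a, σ x a * ∑ p, P x a p * crv h x p q k l := by
        simp only [Finset.sum_mul, Finset.mul_sum]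
        rw [Finset.sum_comm, ← Finset.sum_neg_distrib]
        refine Finset.sum_congr rfl fun a _ => ?_
        rw [← Finset.sum_neg_distrib]
        refine Finset.sum_congr rfl fun p _ => ?_
        ring
      rw [e7]
      simp only [hnull x hx, mul_zero, Finset.sum_const_zero, neg_zero]
    rw [e1, Matrix.zero_mul, Matrix.zero_apply]
  -- the Levi matrix
  have hfc : ∀ y ∈ W, ((sqT h σ y : ℝ) : ℂ) = (S y * h y * (S y)ᴴ) i₀ i₀ := by
    intro y hy
    unfold Pool.Agent.Helper15.RK.sqT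
    rw [hermi_real (hher y hy)]
    unfold hermi
    simp only [Matrix.mul_apply, Matrix.conjTranspose_apply, hS, Matrix.of_apply,
      Finset.sum_mul]
    rw [Finset.sum_comm]
    refine Finset.sum_congr rfl fun p _ => Finset.sum_congr rfl fun q _ => ?_
    simp only [RCLike.star_def]
    ring
  have hfs : ContDiffOn ℝ ∞ (sqT h σ) W := by
    have h1 := hF i₀ i₀
    have h2 : ContDiffOn ℝ ∞ (fun y => ((S y * h y * (S y)ᴴ) i₀ i₀).re) W :=
      (Complex.reCLM.contDiff (n := ∞)).comp_contDiffOn h1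
    refine h2.congr fun y hy => ?_
    rw [← hfc y hy, Complex.ofReal_re]
  have hLM : ∀ k l, LM (sqT h σ) x k l = (D k * h x * (D l)ᴴ) i₀ i₀ := by
    intro k l
    have e1 : LM (sqT h σ) x k l = cd k (cdb l (fun y => (S y * h y * (S y)ᴴ) i₀ i₀)) x := by
      unfold LM
      rw [Matrix.of_apply]
      exact cd_cdb_congr hW hx (fun y hy => hfc y hy) k l
    have e2 : cd k (cdb l (fun y => (S y * h y * (S y)ᴴ) i₀ i₀)) x =
        cdM k (cdbM l (fun y => S y * h y * (S y)ᴴ)) x i₀ i₀ := by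
      simp only [cdM, cdbM, Matrix.of_apply]
    rw [e1, e2, hmain, Matrix.add_apply, hcrv, add_zero]
  have hfin := (hLMF W hW (sqT h σ) hfs).2.2.1 x hx v
  set M : Matrix (Fin n) (Fin n) ℂ := ∑ k, v k • D k with hM
  have e5 : hermi (LM (sqT h σ) x) v v = (M * h x * Mᴴ) i₀ i₀ := by
    unfold hermi
    have e6 : M * h x * Mᴴ = ∑ k, ∑ l, (v k * conj (v l)) • (D k * h x * (D l)ᴴ) := by
      rw [hM, Matrix.conjTranspose_sum, Finset.sum_mul, Finset.sum_mul]
      refine Finset.sum_congr rfl fun k _ => ?_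
      rw [Finset.mul_sum]
      refine Finset.sum_congr rfl fun l _ => ?_
      rw [Matrix.conjTranspose_smul, Matrix.mul_smul, Matrix.smul_mul, Matrix.smul_mul, smul_smul]
      rw [mul_comm]
      rfl
    rw [e6]
    simp only [Matrix.sum_apply, Matrix.smul_apply, smul_eq_mul, hLM]
    refine Finset.sum_congr rfl fun k _ => Finset.sum_congr rfl fun l _ => ?_
    ring
  have hps : (M * h x * Mᴴ).PosSemidef := (hpos x hx).posSemidef.mul_mul_conjTranspose_same M
  have hnn : 0 ≤ (M * h x * Mᴴ) i₀ i₀ := hps.diag_nonneg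
  rw [← e5, ← hfin] at hnn
  exact_mod_cast hnn

end Pool.Agent.Helper10.RBC
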