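import Pool.Agent.Helper10.RBC.Goals
import Pool.Agent.Helper97.HS.MOMP
import Pool.Agent.Helper70.HS.VOLP

/-! RBC: the volumes (`S_RLV`). -/

open Complex Metric Set Filter Topology MeasureTheory
open scoped ContDiff ComplexConjugate ComplexOrder Manifold Matrix MatrixOrder

namespace Pool.Agent.Helper10.RBC

open Pool.Agent.Helper95.Lin Pool.Agent.Helper16.Abund Pool.Agent.Helper92.Orb
  Pool.Agent.Helper10.SP Pool.Agent.Helper95.RK Pool.Agent.Helper57.HS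
  Pool.Agent.Helper15.HS Pool.Agent.Helper15.GS Pool.Agent.Helper57.RBC

universe u v

theorem ket_her {n : ℕ} {T : Set (Cn n)} {G : Type u} [Group G] {R : G → Cn n → Cn n → Prop}
    {H : Cn n → Matrix (Fin n) (Fin n) ℂ} (h : KEt T R H) : HerT T R H :=
  ⟨h.posDef, h.smooth, h.inv⟩

theorem ket_chf {n : ℕ} {T : Set (Cn n)} {G : Type u} [Group G] {R : G → Cn n → Cn n → Prop}
    {H : Cn n → Matrix (Fin n) (Fin n) ℂ} (h : KEt T R H) : CHF H T :=
  ⟨h.smooth, fun x hx => (h.posDef x hx).isHermitian, h.closed⟩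

/-- RLV -/
theorem rlv (hRFAM : S_RFAM.{u}) (hRHOI : S_RHOI.{u}) (hMOMG : S_MOMG.{u}) : S_RLV.{u} := by
  intro n T G _ R H hH κ hκ ε N φ H' Q hε hF hQ
  have hT : IsOpen T := hH.et.isOpen
  obtain ⟨hr1, hr2, hr3, hr4, hr5⟩ := hRHOI T R H hH.et (ket_her hH)
  have hHC : CHF H T := ket_chf hH
  have hHI : InvH R H := hH.inv
  have hfam := (hRFAM T R H hH N φ H' hF ε Q hε hQ).2
  have hu : InvF T R (fun y => ε * φ y + (ld Q y - ld H y)) := by
    obtain ⟨hw, -⟩ := hr5 Q (ket_her hQ.ket)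
    refine ⟨(contDiffOn_const.mul hF.inv.1).add hw.1, fun γ x y hR => ?_⟩
    have h0 := hF.inv.2 γ x y hR
    have h1 := hw.2 γ x y hR
    simp only at h1 ⊢
    rw [h0, h1]
  have key : ∀ β : Cn n → Matrix (Fin n) (Fin n) ℂ, CHF β T → InvH R β →
      ∫ x in T, κ x * (Q x + β x).det.re =
        ∫ x in T, κ x * (((1 + ε * N : ℝ) : ℂ) • rho H x + (ε : ℂ) • H x + β x).det.re := by
    intro β hβ hβI
    have hZ : CHF (fun x => ((1 + ε * N : ℝ) : ℂ) • rho H x + (ε : ℂ) • H x + β x) T :=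
      Pool.Agent.Helper97.HS.chf_ad hT (Pool.Agent.Helper97.HS.chf_ad hT
        (Pool.Agent.Helper97.HS.chf_sm hT hr1 _) (Pool.Agent.Helper97.HS.chf_sm hT hHC ε)) hβ
    have hZI : InvH R (fun x => ((1 + ε * N : ℝ) : ℂ) • rho H x + (ε : ℂ) • H x + β x) :=
      Pool.Agent.Helper97.HS.invH_ad (Pool.Agent.Helper97.HS.invH_ad
        (Pool.Agent.Helper97.HS.invH_sm hr2 _)
        (Pool.Agent.Helper97.HS.invH_sm hHI (ε : ℂ))) hβI
    rw [← hMOMG T R H hH κ hκ _ hZ hZI _ hu]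
    refine setIntegral_congr_fun hT.measurableSet fun x hx => ?_
    have h2 : Q x + β x = ((1 + ε * N : ℝ) : ℂ) • rho H x + (ε : ℂ) • H x + β x +
        LM (fun y => ε * φ y + (ld Q y - ld H y)) x := by
      rw [hfam x hx]
      abel
    show κ x * (Q x + β x).det.re = _
    rw [h2]
  refine ⟨key, fun t => ?_⟩
  rw [key (fun x => (t : ℂ) • H x) (Pool.Agent.Helper97.HS.chf_sm hT hHC t)
    (Pool.Agent.Helper97.HS.invH_sm hHI (t : ℂ)), VolP, ← integral_const_mul]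
  refine setIntegral_congr_fun hT.measurableSet fun x hx => ?_
  have ha : (0 : ℝ) < 1 + ε * N := by
    have := hF.nn
    positivity
  have hac : ((1 + ε * N : ℝ) : ℂ) ≠ 0 := by exact_mod_cast ha.ne'
  have h2 : ((1 + ε * N : ℝ) : ℂ) • rho H x + (ε : ℂ) • H x + (t : ℂ) • H x =
      ((1 + ε * N : ℝ) : ℂ) • (rho H x + (((ε + t) / (1 + ε * N) : ℝ) : ℂ) • H x) := by
    rw [smul_add, smul_smul, add_assoc, ← add_smul]
    congr 2
    push_cast at hac ⊢
    field_simp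
  show κ x * (((1 + ε * N : ℝ) : ℂ) • rho H x + (ε : ℂ) • H x + (t : ℂ) • H x).det.re =
    (1 + ε * N) ^ n * (κ x * (rho H x + (((ε + t) / (1 + ε * N) : ℝ) : ℂ) • H x).det.re)
  rw [h2, Matrix.det_smul, Fintype.card_fin]
  have h3 : ((1 + ε * N : ℝ) : ℂ) ^ n = (((1 + ε * N) ^ n : ℝ) : ℂ) := by push_cast; rfl
  rw [h3, Complex.re_ofReal_mul]
  ring

end Pool.Agent.Helper10.RBC
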